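import Mathlib
import Pool.Agent.H3.Frg4.Defs4
import Pool.Agent.H3.Frg2.Defs

set_option autoImplicit false

/-!
# Boolean combinations and opened formulas: the definitions used in the statement
-/

namespace Pool.Agent.H90.PC

open Pool.Agent.H3.Frg Pool.Agent.H3.Frg2

variable {V : Type}

/-- `BC P A`: the formula `A` is built from formulas in `P` by negations and implications (a formula
in `P` may be used any number of times, and `A` may have any depth and any size). -/
inductive BC (P : Set (Fm V)) : Fm V → Prop
  | base (A : Fm V) : A ∈ P → BC P A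
  | neg (A : Fm V) : BC P A → BC P (Fm.neg A)
  | imp (A B : Fm V) : BC P A → BC P B → BC P (Fm.imp A B)

/-- A derivation from the formulas in `Γ` in the Frege system with axiom schemes `Sch` and modus
ponens that opens only formulas in `O`: every line is in `Γ`, or is the instance of a scheme `ψ`
under a substitution `σ` such that `X.bind σ ∈ O` for all subformulas `X` of `ψ` that are not
variables, or follows from two earlier lines `A` and `A → B` by modus ponens and `A → B` is in
`O`. -/
def IsDerO (Sch : Set (Fm ℕ)) (O Γ : Set (Fm V)) {L : ℕ} (pf : Fin L → Fm V) : Prop :=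
  ∀ i, pf i ∈ Γ ∨
    (∃ ψ ∈ Sch, ∃ σ : ℕ → Fm V, pf i = ψ.bind σ ∧
      ∀ X ∈ ψ.subs, (∀ m, X ≠ Fm.var m) → X.bind σ ∈ O) ∨
    (∃ j k, j < i ∧ k < i ∧ pf k = Fm.imp (pf j) (pf i) ∧ pf k ∈ O)

end Pool.Agent.H90.PC
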