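import Mathlib
import Pool.Agent.H90.PC.Stmt
import Pool.Agent.H3.Ex.Lev
import Pool.Agent.H3.Ex.Tow

set_option autoImplicit false
set_option linter.unusedSectionVars false

/-!
# Frege proofs whose lines are Boolean combinations of few short formulas: definitions

Plan of the whole proof (all files in `Pool/Agent/H90/PC/`).

* `Tr`: compound formulas that are never opened are replaced by the variable `v0`; the derivation
  stays a derivation, and afterwards every subformula `g` of a line is a variable, a subformula of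
  the formula `τ` that is derived, or is opened (`Op`).
* `Cov`: the subformulas of depth at most `ℓ` of the arbitrary formulas in `G` are built from few
  further short formulas `R`.
* `Val`: in a world (`Wld`) where the short formulas have coherent values of small degree, all lines
  have coherent values of degree at most `k`: a Boolean function of Boolean functions of degrees
  `d_i` has degree at most the sum of the `d_i`.
* `Nod`: soundness; `Core`: the combination.
* `Base`, `Tow`, `Num`: the tower of graphs (the landed theorem `levT_step`) gives a world for every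
  list of `2 ^ b` short formulas. The recursion may stop at any level `j0` of the tower: then
  formulas of length about `X ^ (J - j0)` are short and the allowed degree is about the number of
  vertices of the graph of level `j0`. So ONE tautology has the whole range of bounds.
* `Fix`, `Fin`: one CNF, the final numbers.
-/

namespace Pool.Agent.H90.PC

open Finset Pool.Agent.H3.Frg Pool.Agent.H3.Frg2 Pool.Agent.H3.Frg3 Pool.Agent.H3.Frg4
  Pool.Agent.H3.Ex

/-- `g` is a line or `X.bind σ` for a subformula `X` of a scheme `ψ` such that `ψ.bind σ` is a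
line -/
def Op {V : Type} (Sch : Set (Fm ℕ)) {L : ℕ} (pf : Fin L → Fm V) (g : Fm V) : Prop :=
  ∃ i, g = pf i ∨ ∃ ψ ∈ Sch, ∃ σ : ℕ → Fm V, pf i = ψ.bind σ ∧ ∃ X ∈ ψ.subs, g = X.bind σ

/-- `p` is a Boolean function of the functions `r B`, `B ∈ R` -/
def FnOf {X ι : Type} (R : Finset ι) (r : ι → X → Bool) (p : X → Bool) : Prop :=
  ∀ z z', (∀ B ∈ R, r B z = r B z') → p z = p z'

/-- `Gen G G' R K g`: the formula `g` is in `R` or in `K`, or its immediate subformulas are in `G'`
or built from formulas in `G` and `R` -/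
def Gen {V : Type} (G G' R : Finset (Fm V)) (K : Set (Fm V)) (g : Fm V) : Prop :=
  g ∈ R ∨ g ∈ K ∨
    (∃ A, g = Fm.neg A ∧ (A ∈ G' ∨ BC {B | B ∈ G ∨ B ∈ R} A)) ∨
    ∃ A B, g = Fm.imp A B ∧ (A ∈ G' ∨ BC {B | B ∈ G ∨ B ∈ R} A) ∧
      (B ∈ G' ∨ BC {B | B ∈ G ∨ B ∈ R} B)

/-- There is a pseudo-evaluation with allowed degree `M` in which all formulas in `Bs` have coherent
values of small degree and the formulas in `As` are true. -/
def Wld {V : Type} (M w k Kx h : ℕ) (Bs As : List (Fm V)) : Prop :=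
  ∃ (X : Type) (P : PA X) (F : V → X → Bool), P.M = M ∧
    (∀ A ∈ Bs, ∃ (p : X → Bool) (m : ℕ), CE P F k A p ∧ P.Dg (rl p) (w * m) ∧
      h * m ≤ h + 18 * A.len) ∧
    ∀ A ∈ As, (∀ B ∈ A.subs, P.Dg (rl (hv F B)) Kx) ∧ P.Z (fun z => rl (hv F A) z - 1)

/-- the passive property of the tower: there is no world -/
def PrP (M w k Kx h : ℕ) (V : Type) (_v0 : V) (Bs As : List (Fm V)) : Prop :=
  ¬ Wld M w k Kx h Bs As

/-- all numerical conditions -/
structure Nz (J n k t w X Dm kt Kt Mt K s ℓ cnt lam κ L1 : ℕ) (u0 u1 η : ℝ) : Prop where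
  /-- number of vertices of the bottom graph -/
  n1 : 1000 ≤ n
  /-- ratio of sizes -/
  x1 : 1 ≤ X
  /-- depth of the trees -/
  w1 : 16 ≤ w
  /-- level -/
  t1 : 2 * Dm ^ 2 * 1000 + 1 ≤ t
  /-- allowed degree at the bottom -/
  n2 : 3 * 1000 * (2 * (Mt * Dm ^ J)) < n
  /-- size of sets of axioms -/
  n3 : 3 * K ≤ n
  /-- room for sets of axioms -/
  n4 : Dm * K ≤ Mt * Dm ^ J
  /-- degree of coherent values -/
  k1 : w * (1 + 72 * X) ≤ kt
  /-- degree of coherent values -/
  k2 : 20 * kt ≤ Mt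
  /-- degree of coherent values -/
  k3 : 10 * (ℓ + 2) * (kt + Kt) ≤ Mt
  /-- size of the pieces -/
  s1 : w * (4 * X ^ J + 18 * s) ≤ 4 * X ^ J * (kt * Dm ^ J)
  /-- granularity -/
  g1 : 1 + 1000 * Dm + 2 * 1000 * (Dm * (w * (1 + 72 * X)) + Dm) * (Dm * (w * (1 + 72 * X))) < n
  /-- multiplicative weights -/
  la : 2 ≤ lam
  /-- multiplicative weights -/
  ka : Dm * (n * ((k + 1) * 2 ^ k) ^ J) * 3 ^ (4 * (18 + 16 * Dm * 1000) * lam) < lam ^ κ
  /-- base of the moments -/
  a1 : 16 * (Kh Dm 1000 : ℝ) ^ (1 + Dm) ≤ u1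
  /-- base of the moments -/
  a0 : u1 ^ κ ≤ u0
  /-- length of connections -/
  l1 : (n * ((k + 1) * 2 ^ k) ^ J) * (4 * 1000 * Dm) ^ L1 < (4 * 1000 * Dm + 1) ^ L1
  /-- budget -/
  bu : bud t Dm 1000 L1 (Dm * (w * (1 + 72 * X))) < n
  /-- depth of the determined trees -/
  dp : dpt t Dm 1000 L1 ≤ w
  /-- size of sets of axioms -/
  kk : 1000 * (2 * (Dm * (w * (1 + 72 * X)))) ≤ K
  /-- degree -/
  mm : 4 * (Dm * (w * (1 + 72 * X))) ≤ Mt
  /-- local consistency -/
  qq : 4 * (1 + 4 * 1000 * Dm) * (2 * (Dm * (w * (1 + 72 * X)))) < n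
  /-- noise -/
  e1 : (Dm : ℝ) * u0 ^ (2 * Dm) / 2 ^ k ≤ η
  /-- noise -/
  e2 : ((w : ℝ) + 1) * η ≤ 1 / 100
  /-- noise -/
  e3 : (1 + 40 * (((w : ℝ) + 1) * η) ^ 2) ^ (1 + 72 * X) ≤ 2
  /-- union bound -/
  c1 : ((cnt * (3 * (s + 3 * J) ^ 2) ^ J : ℕ) : ℝ) *
    ((n * ((k + 1) * 2 ^ k) ^ J : ℕ) : ℝ) * 2 < 4 ^ (t + 1)

end Pool.Agent.H90.PC
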