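import Mathlib
import Pool.Agent.H90.PC.Defs

set_option autoImplicit false
set_option linter.unusedSectionVars false

/-!
# Module COV: subformulas of small depth of the formulas in `G` are built from few short formulas

Every line `pf i` is a Boolean combination (`BC`) of formulas in `G` and in `Q i`; every subformula `B`
of a formula in `G` has length at most `s`, is in `K`, or is opened (`Op`).

**Definitions** (auxiliary, put them in this file). `sbD A j`: list of the subformulas of `A` of depth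
at most `j` (`sbD (var i) _ = [var i]`, `sbD A 0 = [A]`, `sbD (neg A) (j+1) = neg A :: sbD A j`,
`sbD (imp A B) (j+1) = imp A B :: (sbD A j ++ sbD B j)`); length `< 2 ^ (j + 1)`; contained in `A.subs`;
monotone in `j`; the immediate subformulas of an element of `sbD A j` are in `sbD A (j+1)`.
`G' = ⋃_{g ∈ G} sbD g ℓ` (a `Finset`, classical `DecidableEq`), `G'.card ≤ 2 ^ (ℓ + 1) * G.card`.

**Descent.** Fix a line `i` and let `D_j A` be: `BC {B | B ∈ G ∨ B ∈ Q i} A`, or `A ∈ sbD g j` for some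
`g ∈ G`, or `A ∈ q.subs` for some `q ∈ Q i`. Then `D_0 (pf i)`, and `D_j A` implies `D_(j+1) C` for every
immediate subformula `C` of `A` (cases of `BC`: a base formula in `G` is in `sbD g 0`, a base formula in
`Q i` is in its own `subs`). Hence, if `pf i = ψ.bind σ`, `D_j (X.bind σ)` for every `X ∈ ψ.subs`, where
`j + X.len ≤ ψ.len` may be assumed: state it as: for all `X ∈ ψ.subs` there is `j` with
`j + X.len ≤ ψ.len` and `D_j (X.bind σ)` (induction on `ψ` for a fixed starting `j`: if `D_j (ψ.bind σ)`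
then for all `X ∈ ψ.subs` there is `j'` with `j' + X.len ≤ j + ψ.len` and `D_j' (X.bind σ)`).
Since `1 ≤ X.len` and `ψ.len ≤ ℓ` we get `j ≤ ℓ - 1`.

**The set `R`.** For `g ∈ G'`: `g.len ≤ s` or `g ∈ K` or `Op Sch pf g` (by `hG`, as `g ∈ h.subs` for some
`h ∈ G`). If `Op`, choose the line `i = i(g)`; by the descent `D_j g` for some `j` with `j + 1 ≤ ℓ`, or
`g = pf i` and `D_0 g` (if `ℓ = 0` there are no schemes, and then also `g = pf i` only; note that in this
case `D_0` and the `BC` case or the base case are used: for `ℓ = 0` and `g` a base formula in `G`, the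
immediate subformulas would be in `sbD g 1`, so ASSUME `1 ≤ ℓ` in the statement, `hℓ`).
Then: `g ∈ q.subs` for some `q ∈ Q i`: `g.len ≤ S`, put `g` into `R` ; or `g ∈ sbD h j` with `j + 1 ≤ ℓ`:
the immediate subformulas are in `G'`; or `BC ... g`: base: `g ∈ G`, the immediate subformulas are in
`sbD g 1 ⊆ G'`, or `g ∈ Q i`, put `g` into `R`; `neg`/`imp`: the immediate subformulas are `BC` of `G` and
`Q i`. So `R = ⋃_{g ∈ G'} (Q (i(g)) ∪ {g} if g.len ≤ S)` works (`BC` is monotone in the set; a formula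
in `G'` of length at most `S` is itself in `R`; in particular variables, because of `hs1`). `R.card ≤ G'.card * (v + 1)`, the sum of the lengths is
at most `G'.card * (S + S)`, all members have length at most `S` (members of `Q i` because the sum of
the lengths over `Q i` is at most `S`).
-/

namespace Pool.Agent.H90.PC

open Finset Pool.Agent.H3.Frg Pool.Agent.H3.Frg2 Pool.Agent.H3.Frg3 Pool.Agent.H3.Frg4

theorem self_sb {V : Type} (A : Fm V) : A ∈ A.subs := by
  cases A <;> simp [Fm.subs]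

theorem sum_biUnion_le' {ι β : Type} [DecidableEq β] (s : Finset ι) (t : ι → Finset β)
    (f : β → ℕ) : ∑ b ∈ s.biUnion t, f b ≤ ∑ i ∈ s, ∑ b ∈ t i, f b := by
  classical
  induction s using Finset.induction_on with
  | empty => simp
  | insert a s ha ih =>
    rw [Finset.biUnion_insert, Finset.sum_insert ha]
    have h1 : ∑ b ∈ t a ∪ s.biUnion t, f b ≤ ∑ b ∈ t a, f b + ∑ b ∈ s.biUnion t, f b := by
      rw [← Finset.sum_union_inter]
      exact Nat.le_add_right _ _
    omega

/-- subformulas of depth at most `j` -/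
def sbD {V : Type} : Fm V → ℕ → List (Fm V)
  | Fm.var i, _ => [Fm.var i]
  | Fm.neg A, 0 => [Fm.neg A]
  | Fm.neg A, j + 1 => Fm.neg A :: sbD A j
  | Fm.imp A B, 0 => [Fm.imp A B]
  | Fm.imp A B, j + 1 => Fm.imp A B :: (sbD A j ++ sbD B j)

section

variable {V : Type}

theorem sbD_self (A : Fm V) (j : ℕ) : A ∈ sbD A j := by
  cases A <;> cases j <;> simp [sbD]

theorem sbD_length (A : Fm V) : ∀ j, (sbD A j).length + 1 ≤ 2 ^ (j + 1) := by
  induction A with
  | var i =>
    intro j
    have h1 : 2 ^ 1 ≤ 2 ^ (j + 1) := Nat.pow_le_pow_right (by norm_num) (by omega)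
    simpa [sbD] using h1
  | neg A ih =>
    intro j
    cases j with
    | zero => simp [sbD]
    | succ j =>
      have h1 := ih j
      have h2 : 2 ^ (j + 1 + 1) = 2 ^ (j + 1) + 2 ^ (j + 1) := by ring
      have h3 : 2 ^ 1 ≤ 2 ^ (j + 1) := Nat.pow_le_pow_right (by norm_num) (by omega)
      simp only [sbD, List.length_cons]
      omega
  | imp A B ihA ihB =>
    intro j
    cases j with
    | zero => simp [sbD]
    | succ j =>
      have h1 := ihA j
      have h4 := ihB j
      have h2 : 2 ^ (j + 1 + 1) = 2 ^ (j + 1) + 2 ^ (j + 1) := by ring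
      simp only [sbD, List.length_cons, List.length_append]
      omega

theorem sbD_subs (A : Fm V) : ∀ j, ∀ B ∈ sbD A j, B ∈ A.subs := by
  induction A with
  | var i => intro j B hB; simpa [sbD, Fm.subs] using hB
  | neg A ih =>
    intro j B hB
    cases j with
    | zero =>
      simp only [sbD, List.mem_singleton] at hB
      rw [hB]; exact self_sb _
    | succ j =>
      simp only [sbD, List.mem_cons] at hB
      simp only [Fm.subs, List.mem_cons]
      exact hB.imp id (ih j B)
  | imp A B ihA ihB =>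
    intro j C hC
    cases j with
    | zero =>
      simp only [sbD, List.mem_singleton] at hC
      rw [hC]; exact self_sb _
    | succ j =>
      simp only [sbD, List.mem_cons, List.mem_append] at hC
      simp only [Fm.subs, List.mem_cons, List.mem_append]
      exact hC.imp id (Or.imp (ihA j C) (ihB j C))

theorem sbD_succ (A : Fm V) : ∀ j, ∀ B ∈ sbD A j, B ∈ sbD A (j + 1) := by
  induction A with
  | var i => intro j B hB; simpa [sbD] using hB
  | neg A ih =>
    intro j B hB
    cases j with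
    | zero =>
      simp only [sbD, List.mem_singleton] at hB
      rw [hB]; exact sbD_self _ _
    | succ j =>
      simp only [sbD, List.mem_cons] at hB
      rw [sbD, List.mem_cons]
      exact hB.imp id (ih j B)
  | imp A B ihA ihB =>
    intro j C hC
    cases j with
    | zero =>
      simp only [sbD, List.mem_singleton] at hC
      rw [hC]; exact sbD_self _ _
    | succ j =>
      simp only [sbD, List.mem_cons, List.mem_append] at hC
      rw [sbD, List.mem_cons, List.mem_append]
      exact hC.imp id (Or.imp (ihA j C) (ihB j C))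

theorem sbD_mono (A : Fm V) {j j' : ℕ} (h : j ≤ j') {B : Fm V} (hB : B ∈ sbD A j) :
    B ∈ sbD A j' := by
  induction j', h using Nat.le_induction with
  | base => exact hB
  | succ n _ ih => exact sbD_succ A n B ih

theorem sbD_neg (A : Fm V) : ∀ (j : ℕ) (C : Fm V), Fm.neg C ∈ sbD A j → C ∈ sbD A (j + 1) := by
  induction A with
  | var i => intro j C h; simp [sbD] at h
  | neg A ih =>
    intro j C h
    cases j with
    | zero =>
      simp only [sbD, List.mem_singleton, Fm.neg.injEq] at h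
      rw [sbD, List.mem_cons, h]
      exact Or.inr (sbD_self _ _)
    | succ j =>
      simp only [sbD, List.mem_cons, Fm.neg.injEq] at h
      rw [sbD, List.mem_cons]
      rcases h with h | h
      · rw [h]; exact Or.inr (sbD_self _ _)
      · exact Or.inr (ih j C h)
  | imp A B ihA ihB =>
    intro j C h
    cases j with
    | zero => simp [sbD] at h
    | succ j =>
      simp only [sbD, List.mem_cons, List.mem_append, reduceCtorEq, false_or] at h
      rw [sbD, List.mem_cons, List.mem_append]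
      exact Or.inr (h.imp (ihA j C) (ihB j C))

theorem sbD_imp (A : Fm V) : ∀ (j : ℕ) (C C' : Fm V), Fm.imp C C' ∈ sbD A j →
    C ∈ sbD A (j + 1) ∧ C' ∈ sbD A (j + 1) := by
  induction A with
  | var i => intro j C C' h; simp [sbD] at h
  | neg A ih =>
    intro j C C' h
    cases j with
    | zero => simp [sbD] at h
    | succ j =>
      simp only [sbD, List.mem_cons, reduceCtorEq, false_or] at h
      rw [sbD, List.mem_cons, List.mem_cons]
      exact ⟨Or.inr (ih j C C' h).1, Or.inr (ih j C C' h).2⟩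
  | imp A B ihA ihB =>
    intro j C C' h
    cases j with
    | zero =>
      simp only [sbD, List.mem_singleton, Fm.imp.injEq] at h
      rw [sbD, List.mem_cons, List.mem_cons, List.mem_append, List.mem_append, h.1, h.2]
      exact ⟨Or.inr (Or.inl (sbD_self _ _)), Or.inr (Or.inr (sbD_self _ _))⟩
    | succ j =>
      simp only [sbD, List.mem_cons, List.mem_append, Fm.imp.injEq] at h
      rw [sbD, List.mem_cons, List.mem_cons, List.mem_append, List.mem_append]
      rcases h with h | h | h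
      · rw [h.1, h.2]
        exact ⟨Or.inr (Or.inl (sbD_self _ _)), Or.inr (Or.inr (sbD_self _ _))⟩
      · exact ⟨Or.inr (Or.inl (ihA j C C' h).1), Or.inr (Or.inl (ihA j C C' h).2)⟩
      · exact ⟨Or.inr (Or.inr (ihB j C C' h).1), Or.inr (Or.inr (ihB j C C' h).2)⟩

theorem subs_neg (A : Fm V) : ∀ C : Fm V, Fm.neg C ∈ A.subs → C ∈ A.subs := by
  induction A with
  | var i => intro C h; simp [Fm.subs] at h
  | neg A ih =>
    intro C h
    simp only [Fm.subs, List.mem_cons, Fm.neg.injEq] at h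
    rw [Fm.subs, List.mem_cons]
    rcases h with h | h
    · rw [h]; exact Or.inr (self_sb _)
    · exact Or.inr (ih C h)
  | imp A B ihA ihB =>
    intro C h
    simp only [Fm.subs, List.mem_cons, List.mem_append, reduceCtorEq, false_or] at h
    rw [Fm.subs, List.mem_cons, List.mem_append]
    exact Or.inr (h.imp (ihA C) (ihB C))

theorem subs_imp (A : Fm V) : ∀ C C' : Fm V, Fm.imp C C' ∈ A.subs → C ∈ A.subs ∧ C' ∈ A.subs := by
  induction A with
  | var i => intro C C' h; simp [Fm.subs] at h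
  | neg A ih =>
    intro C C' h
    simp only [Fm.subs, List.mem_cons, reduceCtorEq, false_or] at h
    rw [Fm.subs, List.mem_cons, List.mem_cons]
    exact ⟨Or.inr (ih C C' h).1, Or.inr (ih C C' h).2⟩
  | imp A B ihA ihB =>
    intro C C' h
    simp only [Fm.subs, List.mem_cons, List.mem_append, Fm.imp.injEq] at h
    rw [Fm.subs, List.mem_cons, List.mem_cons, List.mem_append, List.mem_append]
    rcases h with h | h | h
    · rw [h.1, h.2]
      exact ⟨Or.inr (Or.inl (self_sb _)), Or.inr (Or.inr (self_sb _))⟩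
    · exact ⟨Or.inr (Or.inl (ihA C C' h).1), Or.inr (Or.inl (ihA C C' h).2)⟩
    · exact ⟨Or.inr (Or.inr (ihB C C' h).1), Or.inr (Or.inr (ihB C C' h).2)⟩

theorem subs_len (A : Fm V) : ∀ B ∈ A.subs, B.len ≤ A.len := by
  induction A with
  | var i => intro B hB; simp only [Fm.subs, List.mem_singleton] at hB; rw [hB]
  | neg A ih =>
    intro B hB
    simp only [Fm.subs, List.mem_cons] at hB
    rcases hB with rfl | hB
    · exact le_rfl
    · have := ih B hB
      simp only [Fm.len]; omega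
  | imp A B ihA ihB =>
    intro C hC
    simp only [Fm.subs, List.mem_cons, List.mem_append] at hC
    rcases hC with rfl | hC | hC
    · exact le_rfl
    · have := ihA C hC
      simp only [Fm.len]; omega
    · have := ihB C hC
      simp only [Fm.len]; omega

theorem one_le_len (A : Fm V) : 1 ≤ A.len := by
  cases A <;> simp [Fm.len]

theorem BC.mono {P P' : Set (Fm V)} (h : P ⊆ P') {A : Fm V} (hA : BC P A) : BC P' A := by
  induction hA with
  | base A hA => exact BC.base A (h hA)
  | neg A _ ih => exact BC.neg A ih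
  | imp A B _ _ ihA ihB => exact BC.imp A B ihA ihB

/-- the property which is passed to subformulas -/
def Dsc (G Q : Finset (Fm V)) (j : ℕ) (A : Fm V) : Prop :=
  BC {B | B ∈ G ∨ B ∈ Q} A ∨ (∃ g ∈ G, A ∈ sbD g j) ∨ ∃ q ∈ Q, A ∈ q.subs

theorem Dsc.neg {G Q : Finset (Fm V)} {j : ℕ} {C : Fm V} (h : Dsc G Q j (Fm.neg C)) :
    Dsc G Q (j + 1) C := by
  rcases h with h | ⟨g, hg, h⟩ | ⟨q, hq, h⟩
  · cases h with
    | base _ h =>
      rcases h with h | h
      · refine Or.inr (Or.inl ⟨_, h, ?_⟩)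
        rw [sbD, List.mem_cons]
        exact Or.inr (sbD_self _ _)
      · exact Or.inr (Or.inr ⟨_, h, subs_neg _ _ (self_sb _)⟩)
    | neg _ h => exact Or.inl h
  · exact Or.inr (Or.inl ⟨g, hg, sbD_neg g j C h⟩)
  · exact Or.inr (Or.inr ⟨q, hq, subs_neg _ _ h⟩)

theorem Dsc.imp {G Q : Finset (Fm V)} {j : ℕ} {C C' : Fm V} (h : Dsc G Q j (Fm.imp C C')) :
    Dsc G Q (j + 1) C ∧ Dsc G Q (j + 1) C' := by
  rcases h with h | ⟨g, hg, h⟩ | ⟨q, hq, h⟩
  · cases h with
    | base _ h =>
      rcases h with h | h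
      · have h1 : C ∈ sbD (Fm.imp C C') (j + 1) ∧ C' ∈ sbD (Fm.imp C C') (j + 1) := by
          rw [sbD, List.mem_cons, List.mem_cons, List.mem_append, List.mem_append]
          exact ⟨Or.inr (Or.inl (sbD_self _ _)), Or.inr (Or.inr (sbD_self _ _))⟩
        exact ⟨Or.inr (Or.inl ⟨_, h, h1.1⟩), Or.inr (Or.inl ⟨_, h, h1.2⟩)⟩
      · have h1 := subs_imp _ C C' (self_sb (Fm.imp C C'))
        exact ⟨Or.inr (Or.inr ⟨_, h, h1.1⟩), Or.inr (Or.inr ⟨_, h, h1.2⟩)⟩
    | imp _ _ h h' => exact ⟨Or.inl h, Or.inl h'⟩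
  · exact ⟨Or.inr (Or.inl ⟨g, hg, (sbD_imp g j C C' h).1⟩),
      Or.inr (Or.inl ⟨g, hg, (sbD_imp g j C C' h).2⟩)⟩
  · exact ⟨Or.inr (Or.inr ⟨q, hq, (subs_imp _ _ _ h).1⟩),
      Or.inr (Or.inr ⟨q, hq, (subs_imp _ _ _ h).2⟩)⟩

theorem descent {G Q : Finset (Fm V)} (σ : ℕ → Fm V) (ψ : Fm ℕ) :
    ∀ j, Dsc G Q j (ψ.bind σ) → ∀ X ∈ ψ.subs, ∃ j', j' + X.len ≤ j + ψ.len ∧
      Dsc G Q j' (X.bind σ) := by
  induction ψ with
  | var i =>
    intro j h X hX
    simp only [Fm.subs, List.mem_singleton] at hX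
    subst hX
    exact ⟨j, le_rfl, h⟩
  | neg A ih =>
    intro j h X hX
    simp only [Fm.subs, List.mem_cons] at hX
    rcases hX with rfl | hX
    · exact ⟨j, le_rfl, h⟩
    · obtain ⟨j', h1, h2⟩ := ih (j + 1) (Dsc.neg h) X hX
      exact ⟨j', by simp only [Fm.len]; omega, h2⟩
  | imp A B ihA ihB =>
    intro j h X hX
    simp only [Fm.subs, List.mem_cons, List.mem_append] at hX
    rcases hX with rfl | hX | hX
    · exact ⟨j, le_rfl, h⟩
    · obtain ⟨j', h1, h2⟩ := ihA (j + 1) (Dsc.imp h).1 X hX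
      exact ⟨j', by simp only [Fm.len]; omega, h2⟩
    · obtain ⟨j', h1, h2⟩ := ihB (j + 1) (Dsc.imp h).2 X hX
      exact ⟨j', by simp only [Fm.len]; omega, h2⟩

end

theorem cover {V : Type} {Sch : Set (Fm ℕ)} {ℓ : ℕ} (hℓ : 1 ≤ ℓ) (hlen : ∀ ψ ∈ Sch, ψ.len ≤ ℓ)
    {L : ℕ} (pf : Fin L → Fm V) (G : Finset (Fm V)) (Q : Fin L → Finset (Fm V))
    (K : Set (Fm V)) {s v S : ℕ} (hs1 : 1 ≤ s) (hsS : s ≤ S) (hv : ∀ i, (Q i).card ≤ v)
    (hS : ∀ i, ∑ B ∈ Q i, B.len ≤ S) (hBC : ∀ i, BC {A | A ∈ G ∨ A ∈ Q i} (pf i))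
    (hG : ∀ g ∈ G, ∀ B ∈ g.subs, B.len ≤ s ∨ B ∈ K ∨ Op Sch pf B) :
    ∃ G' R : Finset (Fm V), G ⊆ G' ∧ R.card ≤ 2 ^ (ℓ + 1) * G.card * (v + 1) ∧
      ∑ B ∈ R, B.len ≤ 2 ^ (ℓ + 1) * G.card * (2 * S) ∧ (∀ B ∈ R, B.len ≤ S) ∧
      ∀ g ∈ G', Gen G G' R K g := by
  classical
  set G' : Finset (Fm V) := G.biUnion fun g => (sbD g ℓ).toFinset with hG'
  have hmemG' : ∀ {C : Fm V}, C ∈ G' ↔ ∃ g ∈ G, C ∈ sbD g ℓ := by
    intro C
    rw [hG', Finset.mem_biUnion]
    simp only [List.mem_toFinset]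
  have hcard : G'.card ≤ 2 ^ (ℓ + 1) * G.card := by
    rw [mul_comm]
    refine Finset.card_biUnion_le_card_mul _ _ _ fun g _ => ?_
    have h1 := List.toFinset_card_le (sbD g ℓ)
    have h2 := sbD_length g ℓ
    omega
  have hQlen : ∀ i, ∀ B ∈ Q i, B.len ≤ S := fun i B hB =>
    (Finset.single_le_sum (f := fun B : Fm V => B.len) (fun _ _ => Nat.zero_le _) hB).trans (hS i)
  -- the chosen pieces
  have hex : ∀ g : Fm V, ∃ T : Finset (Fm V), T.card ≤ v ∧ ∑ B ∈ T, B.len ≤ S ∧
      (∀ B ∈ T, B.len ≤ S) ∧ (Op Sch pf g → ∃ i, T = Q i ∧ ∃ j, j + 1 ≤ ℓ ∧ Dsc G (Q i) j g) := by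
    intro g
    by_cases hop : Op Sch pf g
    · obtain ⟨i, hi⟩ := hop
      refine ⟨Q i, hv i, hS i, hQlen i, fun _ => ⟨i, rfl, ?_⟩⟩
      rcases hi with rfl | ⟨ψ, hψ, σ, hpf, X, hX, rfl⟩
      · exact ⟨0, by omega, Or.inl (hBC i)⟩
      · have h0 : Dsc G (Q i) 0 (ψ.bind σ) := Or.inl (hpf ▸ hBC i)
        obtain ⟨j, h1, h2⟩ := descent σ ψ 0 h0 X hX
        have h3 := hlen ψ hψ
        have h4 := one_le_len X
        exact ⟨j, by omega, h2⟩
    · exact ⟨∅, by simp, by simp, by simp, fun h => absurd h hop⟩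
  choose T hT1 hT2 hT3 hT4 using hex
  set R : Finset (Fm V) := G'.biUnion fun g => T g ∪ (if g.len ≤ S then {g} else ∅) with hR
  have hRT : ∀ g ∈ G', T g ⊆ R := fun g hg B hB =>
    Finset.mem_biUnion.mpr ⟨g, hg, Finset.mem_union_left _ hB⟩
  have hRs : ∀ g ∈ G', g.len ≤ S → g ∈ R := fun g hg hS' =>
    Finset.mem_biUnion.mpr ⟨g, hg, Finset.mem_union_right _ (by rw [if_pos hS']; simp)⟩
  refine ⟨G', R, ?_, ?_, ?_, ?_, ?_⟩
  · intro g hg
    exact hmemG'.mpr ⟨g, hg, sbD_self g ℓ⟩
  · have h1 : R.card ≤ G'.card * (v + 1) := by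
      refine Finset.card_biUnion_le_card_mul _ _ _ fun g _ => ?_
      refine (Finset.card_union_le _ _).trans (Nat.add_le_add (hT1 g) ?_)
      split_ifs <;> simp
    exact h1.trans (Nat.mul_le_mul_right _ hcard)
  · have h1 : ∑ B ∈ R, B.len ≤ ∑ g ∈ G', ∑ B ∈ T g ∪ (if g.len ≤ S then {g} else ∅), B.len :=
      sum_biUnion_le' _ _ _
    have h2 : ∑ g ∈ G', ∑ B ∈ T g ∪ (if g.len ≤ S then {g} else ∅), B.len ≤ G'.card * (2 * S) := by
      rw [← smul_eq_mul]
      refine Finset.sum_le_card_nsmul _ _ _ fun g _ => ?_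
      have h3 : ∑ B ∈ T g ∪ (if g.len ≤ S then {g} else ∅), B.len ≤
          ∑ B ∈ T g, B.len + ∑ B ∈ (if g.len ≤ S then ({g} : Finset (Fm V)) else ∅), B.len := by
        rw [← Finset.sum_union_inter]
        exact Nat.le_add_right _ _
      refine h3.trans ?_
      have h4 : ∑ B ∈ (if g.len ≤ S then ({g} : Finset (Fm V)) else ∅), B.len ≤ S := by
        split_ifs with h
        · simpa using h
        · simp
      have := hT2 g
      omega
    exact (h1.trans h2).trans (Nat.mul_le_mul_right _ hcard)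
  · intro B hB
    obtain ⟨g, _, hB⟩ := Finset.mem_biUnion.mp hB
    rcases Finset.mem_union.mp hB with hB | hB
    · exact hT3 g B hB
    · split_ifs at hB with h
      · rw [Finset.mem_singleton] at hB
        rw [hB]; exact h
      · simp at hB
  · intro g hg
    by_cases hgS : g.len ≤ S
    · exact Or.inl (hRs g hg hgS)
    by_cases hgR : g ∈ R
    · exact Or.inl hgR
    by_cases hgK : g ∈ K
    · exact Or.inr (Or.inl hgK)
    obtain ⟨h0, hh0, hgh0⟩ := hmemG'.mp hg
    have hop : Op Sch pf g := by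
      rcases hG h0 hh0 g (sbD_subs h0 ℓ g hgh0) with h | h | h
      · exact absurd (h.trans hsS) hgS
      · exact absurd h hgK
      · exact h
    obtain ⟨i, hTi, j, hj, hD⟩ := hT4 g hop
    have hQR : Q i ⊆ R := hTi ▸ hRT g hg
    have hmono : ({B | B ∈ G ∨ B ∈ Q i} : Set (Fm V)) ⊆ {B | B ∈ G ∨ B ∈ R} :=
      fun B hB => hB.imp id fun h => hQR h
    have hvar : ∀ m, g ≠ Fm.var m := by
      rintro m rfl
      exact hgS (by simp only [Fm.len]; omega)
    right; right
    rcases hD with hD | ⟨h, hh, hD⟩ | ⟨q, hq, hD⟩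
    · cases hD with
      | base _ hb =>
        rcases hb with hb | hb
        · cases g with
          | var m => exact absurd rfl (hvar m)
          | neg A =>
            left
            refine ⟨A, rfl, Or.inl (hmemG'.mpr ⟨_, hb, sbD_mono _ hℓ ?_⟩)⟩
            exact sbD_neg _ 0 A (sbD_self _ 0)
          | imp A B =>
            right
            have h1 := sbD_imp _ 0 A B (sbD_self (Fm.imp A B) 0)
            exact ⟨A, B, rfl, Or.inl (hmemG'.mpr ⟨_, hb, sbD_mono _ hℓ h1.1⟩),
              Or.inl (hmemG'.mpr ⟨_, hb, sbD_mono _ hℓ h1.2⟩)⟩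
        · exact absurd (hQR hb) hgR
      | neg A hA => exact Or.inl ⟨A, rfl, Or.inr (hA.mono hmono)⟩
      | imp A B hA hB => exact Or.inr ⟨A, B, rfl, Or.inr (hA.mono hmono), Or.inr (hB.mono hmono)⟩
    · cases g with
      | var m => exact absurd rfl (hvar m)
      | neg A =>
        left
        exact ⟨A, rfl, Or.inl (hmemG'.mpr ⟨h, hh, sbD_mono _ hj (sbD_neg h j A hD)⟩)⟩
      | imp A B =>
        right
        have h1 := sbD_imp h j A B hD
        exact ⟨A, B, rfl, Or.inl (hmemG'.mpr ⟨h, hh, sbD_mono _ hj h1.1⟩),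
          Or.inl (hmemG'.mpr ⟨h, hh, sbD_mono _ hj h1.2⟩)⟩
    · exact absurd ((subs_len q g hD).trans (hQlen i q hq)) hgS

end Pool.Agent.H90.PC
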