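import Mathlib
import Pool.Agent.H90.PC.Defs
import Pool.Agent.H3.Frg2.Eval

set_option autoImplicit false
set_option linter.unusedSectionVars false

/-!
# Module NOD: the values of conjunctions; soundness

* `ce_bigAnd`: if all `C i`, `i < 2 ^ d`, have the value `true` then `bigAnd d C` has the value `true`.
  Induction on `d` (generalising `C`): `bigAnd (d+1) C = ¬(A → ¬B)`, values `A ↦ true`, `B ↦ true`,
  `¬B ↦ false`, `A → ¬B ↦ false`, `¬(A → ¬B) ↦ true`; all pseudo-equalities are equalities of constant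
  functions (`P.peq_of_eq`, `rl_true`, `rl_false`), degrees by `P.dg_const'`.
* `subs_tau`: every subformula of `¬(bigAnd d C)` is a subformula of some `C i`, `i < 2 ^ d`, or has a
  constant value. Induction on `d` for the subformulas of `bigAnd d C`, the new formulas are
  `bigAnd`s, `¬B`, `A → ¬B`, `¬(A → ¬B)`.
* `no_der`: exactly as `no_proof` in `H3/Frg2/Eval.lean` (lemmas `ce_scheme`, `ce_mp`, `ce_uniq` there): by
  strong induction on the line number all values of all lines are `≈ 1`; lines in `Γ` by `hΓ` and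
  uniqueness (`ce_uniq`, `2 * k ≤ P.M`). The line `τ` has the value `false` by `hτ`, so by uniqueness
  `Z (fun _ => 1)` (up to sign), contradiction to `P.z_one`.
-/

namespace Pool.Agent.H90.PC

open Finset Pool.Agent.H3.Frg Pool.Agent.H3.Frg2 Pool.Agent.H3.Frg3 Pool.Agent.H3.Frg4

variable {V X : Type}

theorem ce_bigAnd (P : PA X) (F : V → X → Bool) (k : ℕ) : ∀ (d : ℕ) (C : ℕ → Fm V),
    (∀ i < 2 ^ d, CE P F k (C i) (fun _ => true)) → CE P F k (bigAnd d C) (fun _ => true) := by
  have dgt : ∀ b : Bool, P.Dg (rl fun _ : X => b) k := fun b => by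
    refine P.dg_congr (P.dg_const' (if b then 1 else 0) k) fun z => ?_
    simp [rl]
  intro d
  induction d with
  | zero => intro C h; exact h 0 (by norm_num)
  | succ d ih =>
    intro C h
    have hA := ih C fun i hi => h i (lt_of_lt_of_le hi (by rw [pow_succ]; omega))
    have hB := ih (fun i => C (2 ^ d + i)) fun i hi => h (2 ^ d + i) (by rw [pow_succ]; omega)
    refine ce_neg_iff.2 ⟨dgt _, fun _ => false, ce_imp_iff.2 ⟨dgt _, fun _ => true,
      fun _ => false, hA, ce_neg_iff.2 ⟨dgt _, fun _ => true, hB, ?_⟩, ?_⟩, ?_⟩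
    · exact P.peq_of_eq fun z => by simp [rl]
    · exact P.peq_of_eq fun z => by simp [rl]
    · exact P.peq_of_eq fun z => by simp [rl]

theorem subs_bigAnd (P : PA X) (F : V → X → Bool) (k : ℕ) : ∀ (d : ℕ) (C : ℕ → Fm V),
    (∀ i < 2 ^ d, CE P F k (C i) (fun _ => true)) →
    ∀ B ∈ (bigAnd d C).subs, (∃ i < 2 ^ d, B ∈ (C i).subs) ∨
      ∃ b : Bool, CE P F k B (fun _ => b) := by
  have dgt : ∀ b : Bool, P.Dg (rl fun _ : X => b) k := fun b => by
    refine P.dg_congr (P.dg_const' (if b then 1 else 0) k) fun z => ?_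
    simp [rl]
  intro d
  induction d with
  | zero => intro C h B hB; exact Or.inl ⟨0, by norm_num, hB⟩
  | succ d ih =>
    intro C h B hB
    have h1 : ∀ i < 2 ^ d, CE P F k (C i) (fun _ => true) := fun i hi =>
      h i (lt_of_lt_of_le hi (by rw [pow_succ]; omega))
    have h2 : ∀ i < 2 ^ d, CE P F k (C (2 ^ d + i)) (fun _ => true) := fun i hi =>
      h (2 ^ d + i) (by rw [pow_succ]; omega)
    have hA := ce_bigAnd P F k d C h1
    have hB' := ce_bigAnd P F k d (fun i => C (2 ^ d + i)) h2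
    have hnB : CE P F k (Fm.neg (bigAnd d fun i => C (2 ^ d + i))) (fun _ => false) :=
      ce_neg_iff.2 ⟨dgt _, fun _ => true, hB', P.peq_of_eq fun z => by simp [rl]⟩
    have himp : CE P F k (Fm.imp (bigAnd d C) (Fm.neg (bigAnd d fun i => C (2 ^ d + i))))
        (fun _ => false) :=
      ce_imp_iff.2 ⟨dgt _, fun _ => true, fun _ => false, hA, hnB,
        P.peq_of_eq fun z => by simp [rl]⟩
    simp only [bigAnd, Fm.subs, List.mem_cons, List.mem_append] at hB
    rcases hB with rfl | rfl | hB | rfl | hB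
    · exact Or.inr ⟨true, ce_bigAnd P F k (d + 1) C h⟩
    · exact Or.inr ⟨false, himp⟩
    · rcases ih C h1 B hB with ⟨i, hi, h3⟩ | h3
      · exact Or.inl ⟨i, lt_of_lt_of_le hi (by rw [pow_succ]; omega), h3⟩
      · exact Or.inr h3
    · exact Or.inr ⟨false, hnB⟩
    · rcases ih (fun i => C (2 ^ d + i)) h2 B hB with ⟨i, hi, h3⟩ | h3
      · exact Or.inl ⟨2 ^ d + i, by rw [pow_succ]; omega, h3⟩
      · exact Or.inr h3

theorem subs_tau (P : PA X) (F : V → X → Bool) (k d : ℕ) (C : ℕ → Fm V)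
    (hC : ∀ i < 2 ^ d, CE P F k (C i) (fun _ => true)) :
    ∀ B ∈ (Fm.neg (bigAnd d C)).subs, (∃ i < 2 ^ d, B ∈ (C i).subs) ∨
      ∃ b : Bool, CE P F k B (fun _ => b) := by
  intro B hB
  simp only [Fm.subs, List.mem_cons] at hB
  rcases hB with rfl | hB
  · refine Or.inr ⟨false, ce_neg_iff.2 ⟨?_, fun _ => true, ce_bigAnd P F k d C hC,
      P.peq_of_eq fun z => by simp [rl]⟩⟩
    exact P.dg_congr (P.dg_const' 0 k) fun z => by simp [rl]
  · exact subs_bigAnd P F k d C hC B hB

theorem no_der (P : PA X) (F : V → X → Bool) (k ℓ : ℕ) (hk : 1 ≤ k)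
    (hM : 10 * (ℓ + 2) * k ≤ P.M) (Sch : Set (Fm ℕ))
    (hSch : ∀ ψ ∈ Sch, ψ.len ≤ ℓ ∧ ∀ x : ℕ → Bool, ψ.eval x = true) {Γ : Set (Fm V)}
    {L : ℕ} (pf : Fin L → Fm V) (hpf : IsDer Sch Γ pf) (hCE : ∀ i, ∃ p, CE P F k (pf i) p)
    (hΓ : ∀ A ∈ Γ, CE P F k A (fun _ => true)) {τ : Fm V} (hτ : CE P F k τ (fun _ => false))
    (hfin : ∃ i, pf i = τ) : False := by
  classical
  have hM1 : 2 * k ≤ P.M := by
    refine le_trans ?_ hM
    exact Nat.mul_le_mul_right _ (by omega)
  have hM2 : 2 * (ℓ * k) ≤ P.M := by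
    refine le_trans ?_ hM
    nlinarith [Nat.zero_le (ℓ * k)]
  have key : ∀ m : ℕ, ∀ i : Fin L, (i : ℕ) = m → ∀ p, CE P F k (pf i) p →
      P.Peq (rl p) (fun _ => 1) := by
    intro m
    induction m using Nat.strong_induction_on with
    | _ m ih =>
      intro i hi p hp
      rcases hpf i with h | ⟨ψ, hψ, σ, hσ⟩ | ⟨j, l, hj, hl, hjl⟩
      · exact P.peq_trans (ce_uniq hM1 hp (hΓ _ h)) (P.peq_of_eq fun z => by simp [rl])
      · rw [hσ] at hp
        let v : ℕ → X → Bool := fun i =>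
          if h : ∃ p, CE P F k (σ i) p then h.choose else fun _ => true
        have hv' : ∀ i, (∃ p, CE P F k (σ i) p) → CE P F k (σ i) (v i) := by
          intro i h
          simp only [v, dif_pos h]
          exact h.choose_spec
        have hle : 2 * (ψ.len * k) ≤ P.M := by
          refine le_trans ?_ hM2
          exact Nat.mul_le_mul_left 2 (Nat.mul_le_mul_right k (hSch ψ hψ).1)
        obtain ⟨_, h2⟩ := ce_scheme hk σ v hv' hle hp
        refine P.peq_trans h2 (P.peq_of_eq fun z => ?_)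
        simp [rl, (hSch ψ hψ).2]
      · obtain ⟨a, ha⟩ := hCE j
        obtain ⟨q, hq⟩ := hCE l
        have ha1 := ih j (by omega) j rfl a ha
        have hq1 := ih l (by omega) l rfl q hq
        rw [hjl] at hq
        exact ce_mp hM1 ha hq hp ha1 hq1
  obtain ⟨i, hi⟩ := hfin
  rw [← hi] at hτ
  have h1 := key i i rfl _ hτ
  apply P.z_one
  refine P.z_congr (P.z_neg h1) ?_
  intro z
  simp [rl]

end Pool.Agent.H90.PC
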