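import Mathlib
import Pool.Agent.H90.PC.Defs

set_option autoImplicit false
set_option linter.unusedSectionVars false

/-!
# Module VAL: values of Boolean combinations

`CE`, `PA`, `rl` are in `H3/Frg2/Defs.lean`, lemmas in `H3/Frg2/PALem.lean`, `ce_mono3`, `ce_congr` in
`H3/Frg3`.

* `dg_fnOf`: induction on `R` (generalising `p`). `R = ∅`: `p` is constant (`P.dg_const'`; if `X` is
  empty `rl p` equals any constant function by `funext`). `insert B R`, `B ∉ R`: for `b : Bool` let
  `q b z = true` iff there is `z'` with `r C z' = r C z` for all `C ∈ R`, `r B z' = b` and `p z' = true`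
  (classical `decide`). `q b` is `FnOf R r`, and `p z = if r B z then q true z else q false z`
  (because `p` is a Boolean function of `r C`, `C ∈ insert B R`). Now `rl_ite`, `dg_mul`, `dg_add`,
  `dg_one_sub`; `rl (r B) * rl (q true) + (1 - rl (r B)) * rl (q false)` has degree at most
  `d B + ∑ C ∈ R, d C`.
* `val_neg`, `val_imp`: the value of `¬A` is `fun z => !(a z)`, of `A → B` it is
  `fun z => !(a z) || b z` (`ce_neg_iff`, `ce_imp_iff`, `rl_not`, `rl_imp`, `P.peq_of_eq`); it is `FnOf R r`,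
  and its degree is at most `k` by `dg_fnOf`.
* `val_bc`: induction on `BC`; the hypothesis is only needed for base formulas `B` with
  `B.len ≤ A.len`.
* `val_gen`: strong induction on the length of `g ∈ G'`: `Gen` gives the cases. `g ∈ R`: `r g` is
  `FnOf R r`. `g ∈ K`: a constant is `FnOf R r`. `g = ¬A`: `A ∈ G'`: induction hypothesis; `A` built from `G`
  and `R`: `val_bc` with the induction hypothesis for base formulas in `G ⊆ G'` (they have length
  `≤ A.len < g.len`) and `r B` for base formulas `B ∈ R`; then `val_neg`. The same for implications.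
-/

namespace Pool.Agent.H90.PC

open Finset Pool.Agent.H3.Frg Pool.Agent.H3.Frg2 Pool.Agent.H3.Frg3 Pool.Agent.H3.Frg4

theorem dg_fnOf {X ι : Type} [DecidableEq ι] (P : PA X) (r : ι → X → Bool) (d : ι → ℕ)
    (R : Finset ι) : (∀ B ∈ R, P.Dg (rl (r B)) (d B)) → ∀ p : X → Bool, FnOf R r p →
      P.Dg (rl p) (∑ B ∈ R, d B) := by
  classical
  induction R using Finset.induction_on with
  | empty =>
    intro _ p hp
    rcases isEmpty_or_nonempty X with h | ⟨⟨z0⟩⟩
    · exact P.dg_congr (P.dg_const' 0 _) (fun z => (h.false z).elim)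
    · refine P.dg_congr (P.dg_const' (rl p z0) _) (fun z => ?_)
      have h1 : p z0 = p z := hp z0 z (fun B hB => absurd hB (Finset.notMem_empty B))
      unfold rl
      rw [h1]
  | insert B R hB ih =>
    intro hd p hp
    set q : Bool → X → Bool := fun b z =>
      decide (∃ z', (∀ C ∈ R, r C z' = r C z) ∧ r B z' = b ∧ p z' = true) with hq
    have hqF : ∀ b, FnOf R r (q b) := by
      intro b z z' hz
      simp only [hq]
      rw [decide_eq_decide]
      constructor
      · rintro ⟨y, h1, h2, h3⟩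
        exact ⟨y, fun C hC => (h1 C hC).trans (hz C hC), h2, h3⟩
      · rintro ⟨y, h1, h2, h3⟩
        exact ⟨y, fun C hC => (h1 C hC).trans (hz C hC).symm, h2, h3⟩
    have hqp : ∀ z, q (r B z) z = p z := by
      intro z
      have h1 : (∃ z', (∀ C ∈ R, r C z' = r C z) ∧ r B z' = r B z ∧ p z' = true) ↔
          p z = true := by
        constructor
        · rintro ⟨y, h1, h2, h3⟩
          rw [← h3]
          refine hp z y (fun C hC => ?_)
          rcases Finset.mem_insert.1 hC with h | h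
          · rw [h, h2]
          · exact (h1 C h).symm
        · intro h
          exact ⟨z, fun _ _ => rfl, rfl, h⟩
      simp only [hq]
      rw [Bool.eq_iff_iff, decide_eq_true_iff]
      exact h1
    have hd' : ∀ C ∈ R, P.Dg (rl (r C)) (d C) := fun C hC => hd C (Finset.mem_insert_of_mem hC)
    have h1 := ih hd' (q true) (hqF true)
    have h2 := ih hd' (q false) (hqF false)
    have h3 := hd B (Finset.mem_insert_self B R)
    have h4 := P.dg_congr (P.dg_add (P.dg_mul h3 h1) (P.dg_mul (P.dg_one_sub h3) h2))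
      (fun z => (rl_ite (r B) (q true) (q false) z).symm)
    rw [Finset.sum_insert hB]
    refine P.dg_congr h4 (fun z => ?_)
    have h5 : (if r B z = true then q true z else q false z) = p z := by
      rw [← hqp z]
      cases r B z <;> rfl
    show (if (if r B z = true then q true z else q false z) = true then (1 : ℝ) else 0) =
      if p z = true then (1 : ℝ) else 0
    rw [h5]

variable {V X : Type} {P : PA X} {F : V → X → Bool} {k : ℕ} {R : Finset (Fm V)}
  {r : Fm V → X → Bool} {d : Fm V → ℕ}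

private theorem val_dg (hd : ∀ B ∈ R, P.Dg (rl (r B)) (d B)) (hk : ∑ B ∈ R, d B ≤ k)
    {p : X → Bool} (hp : FnOf R r p) : P.Dg (rl p) k := by
  classical
  exact P.dg_mono (dg_fnOf P r d R hd p hp) hk

theorem val_neg (hd : ∀ B ∈ R, P.Dg (rl (r B)) (d B)) (hk : ∑ B ∈ R, d B ≤ k) {A : Fm V}
    (hA : ∃ p, CE P F k A p ∧ FnOf R r p) : ∃ p, CE P F k (Fm.neg A) p ∧ FnOf R r p := by
  obtain ⟨p, h1, h2⟩ := hA
  have h3 : FnOf R r (fun z => !(p z)) := fun z z' h => by
    show (!(p z)) = !(p z')
    rw [h2 z z' h]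
  exact ⟨fun z => !(p z), ce_neg_iff.2 ⟨val_dg hd hk h3, p, h1, P.peq_of_eq (rl_not p)⟩, h3⟩

theorem val_imp (hd : ∀ B ∈ R, P.Dg (rl (r B)) (d B)) (hk : ∑ B ∈ R, d B ≤ k) {A B : Fm V}
    (hA : ∃ p, CE P F k A p ∧ FnOf R r p) (hB : ∃ p, CE P F k B p ∧ FnOf R r p) :
    ∃ p, CE P F k (Fm.imp A B) p ∧ FnOf R r p := by
  obtain ⟨p, h1, h2⟩ := hA
  obtain ⟨q, h1', h2'⟩ := hB
  have h3 : FnOf R r (fun z => !(p z) || q z) := fun z z' h => by
    show (!(p z) || q z) = (!(p z') || q z')
    rw [h2 z z' h, h2' z z' h]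
  exact ⟨fun z => !(p z) || q z,
    ce_imp_iff.2 ⟨val_dg hd hk h3, p, q, h1, h1', P.peq_of_eq (rl_imp p q)⟩, h3⟩

theorem val_bc (hd : ∀ B ∈ R, P.Dg (rl (r B)) (d B)) (hk : ∑ B ∈ R, d B ≤ k)
    {Y : Set (Fm V)} {A : Fm V} (hA : BC Y A)
    (hY : ∀ B ∈ Y, B.len ≤ A.len → ∃ p, CE P F k B p ∧ FnOf R r p) :
    ∃ p, CE P F k A p ∧ FnOf R r p := by
  induction hA with
  | base A hA => exact hY A hA le_rfl
  | neg A _ ih =>
    refine val_neg hd hk (ih fun B hB hl => hY B hB ?_)
    exact hl.trans (Nat.le_succ _)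
  | imp A B _ _ ihA ihB =>
    refine val_imp hd hk (ihA fun C hC hl => hY C hC ?_) (ihB fun C hC hl => hY C hC ?_)
    · have : (Fm.imp A B).len = A.len + B.len + 1 := rfl
      omega
    · have : (Fm.imp A B).len = A.len + B.len + 1 := rfl
      omega

theorem val_gen {G G' : Finset (Fm V)} {K : Set (Fm V)} (hGG : G ⊆ G')
    (hgen : ∀ g ∈ G', Gen G G' R K g) (hr : ∀ B ∈ R, CE P F k B (r B))
    (hd : ∀ B ∈ R, P.Dg (rl (r B)) (d B)) (hk : ∑ B ∈ R, d B ≤ k)
    (hK : ∀ B ∈ K, ∃ b : Bool, CE P F k B (fun _ => b)) :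
    ∀ g ∈ G', ∃ p, CE P F k g p ∧ FnOf R r p := by
  have key : ∀ n : ℕ, ∀ g ∈ G', g.len < n → ∃ p, CE P F k g p ∧ FnOf R r p := by
    intro n
    induction n with
    | zero => intro g _ h; exact absurd h (Nat.not_lt_zero _)
    | succ n ih =>
      intro g hg hn
      have hsub : ∀ A : Fm V, A.len < g.len → (A ∈ G' ∨ BC {B | B ∈ G ∨ B ∈ R} A) →
          ∃ p, CE P F k A p ∧ FnOf R r p := by
        intro A hA h
        rcases h with h | h
        · exact ih A h (by omega)
        · refine val_bc hd hk h (fun B hB hl => ?_)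
          rcases hB with hB | hB
          · exact ih B (hGG hB) (by omega)
          · exact ⟨r B, hr B hB, fun z z' hz => hz B hB⟩
      rcases hgen g hg with h | h | ⟨A, rfl, hA⟩ | ⟨A, B, rfl, hA, hB⟩
      · exact ⟨r g, hr g h, fun z z' hz => hz g h⟩
      · obtain ⟨b, hb⟩ := hK g h
        exact ⟨fun _ => b, hb, fun _ _ _ => rfl⟩
      · exact val_neg hd hk (hsub A (Nat.lt_succ_self _) hA)
      · have hl : (Fm.imp A B).len = A.len + B.len + 1 := rfl
        exact val_imp hd hk (hsub A (by omega) hA) (hsub B (by omega) hB)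
  exact fun g hg => key (g.len + 1) g hg (Nat.lt_succ_self _)

end Pool.Agent.H90.PC
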