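import Mathlib
import Pool.Agent.H90.PC.Cov
import Pool.Agent.H90.PC.Val
import Pool.Agent.H90.PC.Nod

set_option autoImplicit false
set_option linter.unusedSectionVars false

/-!
# Module CORE: if every list of short formulas has a world, there is no derivation

* `K₀ = {B | B ∈ τ.subs ∧ ¬ ∃ i < 2 ^ d, B ∈ (C i).subs}` for `τ = ¬(bigAnd d C)`. `cover` with `K₀`, `s`, `v`, `S`
  (variables have length `1 ≤ s` because `1 ≤ (C 0).len`; subformulas of a formula are not longer: prove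
  `B ∈ A.subs → B.len ≤ A.len`) gives `G'`, `R`.
* `Bs = R.toList ++ (List.finRange L).flatMap (fun i => (Q i).toList) ++ (List.range (2 ^ d)).map C`, of length
  at most `2 ^ (ℓ + 1) * G.card * (v + 1) + L * v + 2 ^ d`. `hW` gives `X`, `P`, `F`; choose `r`, `m` with
  `CE P F k B (r B)`, `P.Dg (rl (r B)) (w * m B)`, `h * m B ≤ h + 18 * B.len` for `B ∈ Bs`; `d B = w * m B`.
* For a finite set `Y ⊆ Bs` with `Y.card ≤ 2 ^ (ℓ + 1) * (G.card + 1) * (v + 1)` and sum of the lengths at most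
  `2 ^ (ℓ + 1) * (G.card + 1) * (2 * S)` (in particular `R` and `R ∪ Q i`):
  `h * ∑ B ∈ Y, d B = w * ∑ h * m B ≤ w * (h * Y.card + 18 * ∑ B.len) ≤ h * k`, so `∑ B ∈ Y, d B ≤ k`.
* Clauses: `C i ∈ As` for `i < 2 ^ d`: `ce_hv` (H3/Frg2/Eval) and `ce_congr` (H3/Frg2/Decomp) give
  `CE P F k (C i) (fun _ => true)` (`2 * (k + K) ≤ M`). By `hCd` this holds for all `i`.
* `subs_tau` gives constant values on `K₀`, `ce_bigAnd` and `ce_neg_iff` the value `false` of `τ`.
* `val_gen` (for `R`): values of the formulas in `G`, they are `FnOf R r`, hence `FnOf (R ∪ Q i) r`;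
  `val_bc` for `pf i` with `R ∪ Q i`. Then `no_der`.
-/

namespace Pool.Agent.H90.PC

open Finset Pool.Agent.H3.Frg Pool.Agent.H3.Frg2 Pool.Agent.H3.Frg3 Pool.Agent.H3.Frg4

theorem len_le_of_subs {V : Type} (A : Fm V) : ∀ B ∈ A.subs, B.len ≤ A.len := by
  induction A with
  | var i => intro B hB; simp only [Fm.subs, List.mem_singleton] at hB; rw [hB]
  | neg A ih =>
    intro B hB
    simp only [Fm.subs, List.mem_cons] at hB
    rcases hB with rfl | hB
    · exact le_rfl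
    · have := ih B hB
      simp only [Fm.len]; omega
  | imp A A' ih ih' =>
    intro B hB
    simp only [Fm.subs, List.mem_cons, List.mem_append] at hB
    rcases hB with rfl | hB | hB
    · exact le_rfl
    · have := ih B hB
      simp only [Fm.len]; omega
    · have := ih' B hB
      simp only [Fm.len]; omega

theorem fnOf_mono {X ι : Type} {R R' : Finset ι} (h : R ⊆ R') {r : ι → X → Bool} {p : X → Bool}
    (hp : FnOf R r p) : FnOf R' r p := fun z z' hz => hp z z' fun B hB => hz B (h hB)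

theorem core {V : Type} {Sch : Set (Fm ℕ)} {ℓ : ℕ} (hℓ : 1 ≤ ℓ)
    (hSch : ∀ ψ ∈ Sch, ψ.len ≤ ℓ ∧ ∀ x : ℕ → Bool, ψ.eval x = true)
    {d : ℕ} {C : ℕ → Fm V} {L : ℕ} {pf : Fin L → Fm V} (hpf : IsDer Sch (Set.range C) pf)
    (hfin : ∃ i, pf i = Fm.neg (bigAnd d C)) (hCd : ∀ i, ∃ j, j < 2 ^ d ∧ C i = C j)
    {s v S : ℕ} (hC : ∀ i, (C i).len ≤ s) (hs : s ≤ S)
    (G : Finset (Fm V)) (Q : Fin L → Finset (Fm V)) (hv : ∀ i, (Q i).card ≤ v)
    (hS : ∀ i, ∑ B ∈ Q i, B.len ≤ S) (hBC : ∀ i, BC {A | A ∈ G ∨ A ∈ Q i} (pf i))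
    (hG : ∀ g ∈ G, ∀ B ∈ g.subs, (∃ x, B = Fm.var x) ∨
      B ∈ (Fm.neg (bigAnd d C)).subs ∨ Op Sch pf B)
    {M w k K h : ℕ} (hh : 1 ≤ h) (hk : 1 ≤ k) (hM : 10 * (ℓ + 2) * (k + K) ≤ M)
    (hsize : w * (h * (2 ^ (ℓ + 1) * (G.card + 1) * (v + 1)) +
      18 * (2 ^ (ℓ + 1) * (G.card + 1) * (2 * S))) ≤ h * k)
    (hW : ∀ Bs : List (Fm V), (∀ B ∈ Bs, B.len ≤ S) →
      Bs.length ≤ (L + 2 ^ (ℓ + 1) * (G.card + 1)) * (v + 1) + 2 ^ d →
      Wld M w k K h Bs ((List.range (2 ^ d)).map C)) : False := by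
  classical
  obtain ⟨τ, hτ⟩ : ∃ τ, τ = Fm.neg (bigAnd d C) := ⟨_, rfl⟩
  obtain ⟨E2, hE2⟩ : ∃ E2, E2 = 2 ^ (ℓ + 1) := ⟨_, rfl⟩
  have hE1 : 1 ≤ E2 := by rw [hE2]; exact Nat.one_le_two_pow
  rw [← hE2] at hsize hW
  obtain ⟨K₀, hK₀⟩ : ∃ K₀ : Set (Fm V), K₀ = {B | B ∈ τ.subs ∧ ¬ ∃ i < 2 ^ d, B ∈ (C i).subs} :=
    ⟨_, rfl⟩
  have hs1 : 1 ≤ s := (Fm_len_pos (C 0)).trans (hC 0)
  obtain ⟨G', R, hGG, hRc, hRS, hRl, hgen⟩ := cover hℓ (fun ψ hψ => (hSch ψ hψ).1) pf G Q K₀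
    hs1 hs hv hS hBC (fun g hg B hB => by
      rcases hG g hg B hB with ⟨x, rfl⟩ | h | h
      · exact Or.inl hs1
      · by_cases h2 : ∃ i < 2 ^ d, B ∈ (C i).subs
        · obtain ⟨i, -, hi⟩ := h2
          exact Or.inl ((len_le_of_subs _ B hi).trans (hC i))
        · refine Or.inr (Or.inl ?_)
          rw [hK₀]
          exact ⟨by rw [hτ]; exact h, h2⟩
      · exact Or.inr (Or.inr h))
  rw [← hE2] at hRc hRS
  -- the list of short formulas
  obtain ⟨Bs, hBs⟩ : ∃ Bs : List (Fm V), Bs = R.toList ++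
    ((List.finRange L).flatMap (fun i => (Q i).toList) ++ (List.range (2 ^ d)).map C) := ⟨_, rfl⟩
  have hRB : ∀ B ∈ R, B ∈ Bs := fun B hB => by
    rw [hBs]; exact List.mem_append_left _ (Finset.mem_toList.mpr hB)
  have hQB : ∀ i, ∀ B ∈ Q i, B ∈ Bs := fun i B hB => by
    rw [hBs]
    exact List.mem_append_right _ (List.mem_append_left _ (List.mem_flatMap.mpr
      ⟨i, List.mem_finRange i, Finset.mem_toList.mpr hB⟩))
  have hCB : ∀ i < 2 ^ d, C i ∈ Bs := fun i hi => by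
    rw [hBs]
    exact List.mem_append_right _ (List.mem_append_right _ (List.mem_map.mpr
      ⟨i, List.mem_range.mpr hi, rfl⟩))
  have hQl : ∀ i, ∀ B ∈ Q i, B.len ≤ S := fun i B hB =>
    (Finset.single_le_sum (f := fun B : Fm V => B.len) (fun _ _ => Nat.zero_le _) hB).trans (hS i)
  have hBsl : ∀ B ∈ Bs, B.len ≤ S := by
    intro B hB
    rw [hBs, List.mem_append, List.mem_append, List.mem_flatMap, List.mem_map] at hB
    rcases hB with hB | ⟨i, -, hB⟩ | ⟨i, -, rfl⟩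
    · exact hRl B (Finset.mem_toList.mp hB)
    · exact hQl i B (Finset.mem_toList.mp hB)
    · exact (hC i).trans hs
  have hlen : Bs.length ≤ (L + E2 * (G.card + 1)) * (v + 1) + 2 ^ d := by
    rw [hBs, List.length_append, List.length_append, List.length_map, List.length_range,
      Finset.length_toList]
    have h1 : ((List.finRange L).flatMap fun i => (Q i).toList).length ≤ L * v := by
      rw [List.length_flatMap]
      have h2 : ∀ x ∈ (List.finRange L).map (fun i => ((Q i).toList).length), x ≤ v := by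
        intro x hx
        rw [List.mem_map] at hx
        obtain ⟨i, -, rfl⟩ := hx
        rw [Finset.length_toList]
        exact hv i
      have h3 := List.sum_le_card_nsmul _ v h2
      rw [List.length_map, List.length_finRange, smul_eq_mul] at h3
      exact h3
    have h2 : (L + E2 * (G.card + 1)) * (v + 1) = E2 * G.card * (v + 1) + L * v + L +
      E2 * (v + 1) := by ring
    omega
  obtain ⟨X, P, F, hPM, hval, hAx⟩ := hW Bs hBsl hlen
  choose! r m hr using hval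
  obtain ⟨dg, hdg⟩ : ∃ dg : Fm V → ℕ, dg = fun B => w * m B := ⟨_, rfl⟩
  -- degrees
  have hsum : ∀ Y : Finset (Fm V), (∀ B ∈ Y, B ∈ Bs) → Y.card ≤ E2 * (G.card + 1) * (v + 1) →
      ∑ B ∈ Y, B.len ≤ E2 * (G.card + 1) * (2 * S) → ∑ B ∈ Y, dg B ≤ k := by
    intro Y hY h1 h2
    refine Nat.le_of_mul_le_mul_left ?_ (show 0 < h by omega)
    refine le_trans ?_ hsize
    rw [Finset.mul_sum]
    have h3 : ∀ B ∈ Y, h * dg B ≤ w * (h + 18 * B.len) := by
      intro B hB
      rw [hdg]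
      show h * (w * m B) ≤ _
      calc h * (w * m B) = w * (h * m B) := by ring
        _ ≤ _ := Nat.mul_le_mul_left _ (hr B (hY B hB)).2.2
    refine (Finset.sum_le_sum h3).trans ?_
    rw [← Finset.mul_sum]
    refine Nat.mul_le_mul_left _ ?_
    rw [Finset.sum_add_distrib, Finset.sum_const, smul_eq_mul, ← Finset.mul_sum]
    refine Nat.add_le_add ?_ (Nat.mul_le_mul_left _ h2)
    rw [mul_comm]
    exact Nat.mul_le_mul_left _ h1
  have hce : ∀ B ∈ Bs, CE P F k B (r B) := fun B hB => (hr B hB).1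
  have hdd : ∀ B ∈ Bs, P.Dg (rl (r B)) (dg B) := fun B hB => by
    rw [hdg]; exact (hr B hB).2.1
  -- the clauses
  have hM2 : 2 * (k + K) ≤ P.M := by
    rw [hPM]
    refine le_trans ?_ hM
    exact Nat.mul_le_mul_right _ (by omega)
  have hC1 : ∀ i < 2 ^ d, CE P F k (C i) (fun _ => true) := by
    intro i hi
    obtain ⟨h1, h2⟩ := hAx (C i) (List.mem_map.mpr ⟨i, List.mem_range.mpr hi, rfl⟩)
    have h3 := ce_hv hM2 h1 (hce _ (hCB i hi))
    refine ce_congr (hce _ (hCB i hi)) (P.dg_congr (P.dg_const' 1 k) fun z => by simp [rl]) ?_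
    refine P.peq_symm (P.peq_trans h3 ?_)
    exact P.z_congr h2 fun z => by simp [rl]
  have hC2 : ∀ i, CE P F k (C i) (fun _ => true) := by
    intro i
    obtain ⟨j, hj, h1⟩ := hCd i
    rw [h1]
    exact hC1 j hj
  have hK : ∀ B ∈ K₀, ∃ b : Bool, CE P F k B (fun _ => b) := by
    intro B hB
    rw [hK₀] at hB
    obtain ⟨h1, h2⟩ := hB
    rw [hτ] at h1
    rcases subs_tau P F k d C hC1 B h1 with h3 | h3
    · exact absurd h3 h2
    · exact h3
  have hτf : CE P F k τ (fun _ => false) := by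
    rw [hτ]
    refine ce_neg_iff.2 ⟨P.dg_congr (P.dg_const' 0 k) fun z => by simp [rl], fun _ => true,
      ce_bigAnd P F k d C hC1, P.peq_of_eq fun z => by simp [rl]⟩
  -- the formulas in `G`
  have hRk : ∑ B ∈ R, dg B ≤ k := by
    refine hsum R hRB (hRc.trans ?_) (hRS.trans ?_)
    · exact Nat.mul_le_mul_right _ (Nat.mul_le_mul_left _ (by omega))
    · exact Nat.mul_le_mul_right _ (Nat.mul_le_mul_left _ (by omega))
  have hGv := val_gen (P := P) (F := F) (k := k) (r := r) (d := dg) hGG hgen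
    (fun B hB => hce B (hRB B hB)) (fun B hB => hdd B (hRB B hB)) hRk hK
  -- the lines
  have hlines : ∀ i, ∃ p, CE P F k (pf i) p := by
    intro i
    have hU : ∀ B ∈ R ∪ Q i, B ∈ Bs := by
      intro B hB
      rcases Finset.mem_union.mp hB with hB | hB
      · exact hRB B hB
      · exact hQB i B hB
    have h1 : (R ∪ Q i).card ≤ E2 * (G.card + 1) * (v + 1) := by
      have e1 := Finset.card_union_le R (Q i)
      have e2 := hv i
      have e3 : E2 * (G.card + 1) * (v + 1) = E2 * G.card * (v + 1) + E2 * (v + 1) := by ring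
      have e4 : 1 * (v + 1) ≤ E2 * (v + 1) := Nat.mul_le_mul_right _ hE1
      omega
    have h2 : ∑ B ∈ R ∪ Q i, B.len ≤ E2 * (G.card + 1) * (2 * S) := by
      have e1 : ∑ B ∈ R ∪ Q i, B.len ≤ ∑ B ∈ R, B.len + ∑ B ∈ Q i, B.len := by
        rw [← Finset.sum_union_inter]
        exact Nat.le_add_right _ _
      have e2 := hS i
      have e3 : E2 * (G.card + 1) * (2 * S) = E2 * G.card * (2 * S) + E2 * (2 * S) := by ring
      have e4 : 1 * (2 * S) ≤ E2 * (2 * S) := Nat.mul_le_mul_right _ hE1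
      omega
    have h3 := hsum _ hU h1 h2
    obtain ⟨p, hp, -⟩ := val_bc (P := P) (F := F) (k := k) (R := R ∪ Q i) (r := r) (d := dg)
      (fun B hB => hdd B (hU B hB)) h3 (hBC i) (fun B hB _ => by
        rcases hB with hB | hB
        · obtain ⟨p, hp1, hp2⟩ := hGv B (hGG hB)
          exact ⟨p, hp1, fnOf_mono Finset.subset_union_left hp2⟩
        · exact ⟨r B, hce B (hQB i B hB), fun z z' hz => hz B (Finset.mem_union_right _ hB)⟩)
    exact ⟨p, hp⟩
  refine no_der P F k ℓ hk ?_ Sch hSch pf hpf hlines ?_ hτf ?_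
  · rw [hPM]
    exact (Nat.mul_le_mul_left _ (Nat.le_add_right _ _)).trans hM
  · rintro A ⟨i, rfl⟩
    exact hC2 i
  · obtain ⟨i, hi⟩ := hfin
    exact ⟨i, by rw [hi, hτ]⟩

end Pool.Agent.H90.PC
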