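import Mathlib
import Pool.Agent.H90.PC.Defs

set_option autoImplicit false
set_option linter.unusedSectionVars false

/-!
# Module BASE: the bottom level and the top level of the tower

* `ax_le`: `bf` for `{v}` gives `Z (chi (bd {v}) - ε v)` (`epsX ε {v} = ε v`, see `PFam.ax` in
  `H3/Frg3/Fam.lean`). Multiply (`z_mul`) by `z ↦ (1 - rl (hv A) z) * (ε v / 2)`, of degree at most `K`
  (`W_ind_supp`, `vars_subs` or directly as in `lev_top` of `H3/Frg3/QLev.lean`); pointwise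
  `(1 - hv A)(ε v)(chi - ε v) / 2 = hv A - 1`: clear if `hv A z = 1`; if `hv A z = 0` then `chi ≠ ε v`, so
  `chi = - ε v` (both are `±1`) and the left side is `-1`.
* `levT_baseP`: as `lev_base` in `H3/Frg3/QLev.lean`: for `A ∈ Bs` apply `mid` (H3/Frg3/Mid) with `t = w`
  (`Dg (rl g) w` from `dg_of_TD`), property `TD w`; the value `vl Ah` has degree `≤ w * Ah.len` (`dg_vl`) and
  `h * Ah.len ≤ h + 18 * A.len`, `m = Ah.len`. The statement on `As` is the hypothesis of `LevT` (`fam.dg`,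
  `fam.hM`). So `Wld` holds, contradiction to `PrP`.
* `world_top`: by contradiction, apply `hlev` as in `levT_top` (H3/Ex/Lev) with `Pr = PrP …`, using `ax_le`
  instead of `PFam.ax`.
-/

namespace Pool.Agent.H90.PC

open Finset Pool.Agent.H3.Frg Pool.Agent.H3.Frg2 Pool.Agent.H3.Frg3 Pool.Agent.H3.Frg4
  Pool.Agent.H3.Ex

variable {E Wv : Type} [Fintype E] [DecidableEq E] [Fintype Wv] [DecidableEq Wv]
  {src tgt : E → Wv}

theorem ax_le (fam : PFam src tgt) {ε : Wv → ℝ} (hε : ∀ w, ε w * ε w = 1) (hK : 1 ≤ fam.K)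
    {K : ℕ} (hKM : 2 * K ≤ fam.M) (v : Wv) (hv1 : (bd src tgt {v}).card ≤ K) (A : Fm E)
    (hA : A.vars.card ≤ K) (h : ∀ x, chi (bd src tgt {v}) x = ε v → A.eval x = true) :
    (fam.P ε hε).Z (fun z => rl (hv (fun i z => z i) A) z - 1) := by
  have hAd : Dg (rl (hv (fun (i : E) (z : E → Bool) => z i) A)) K := by
    intro T hT
    by_contra h1
    have h2 := W_ind_supp A T h1
    have h3 := Finset.card_le_card h2
    omega
  set P := fam.P ε hε with hP
  have h1 : P.Z (fun z => chi (bd src tgt {v}) z - epsX ε {v}) := fam.bf ε hε {v} (by simpa using hK)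
  have h2 : epsX ε {v} = ε v := by simp [epsX]
  have d1 : P.Dg (fun z => chi (bd src tgt {v}) z - epsX ε {v}) K :=
    (fam.dg _ _ _ _).mpr (Dg_bd_sub src tgt ε {v} K hv1)
  have d2 : P.Dg (fun z => (-(ε v) / 2) * (rl (hv (fun (i : E) (z : E → Bool) => z i) A) z - 1)) K := by
    refine P.dg_smul _ (P.dg_sub ((fam.dg _ _ _ _).mpr hAd) (P.dg_mono (P.dg_const 1) (Nat.zero_le _)))
  have hPM : P.M = fam.M := fam.hM ε hε
  refine P.z_congr (P.z_mul h1 d1 d2 (by omega)) fun z => ?_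
  rw [h2]
  have h3 : rl (hv (fun (i : E) (z : E → Bool) => z i) A) z
      = if A.eval z = true then (1:ℝ) else 0 := rfl
  have h4 := chi_mul_self (bd src tgt {v}) z
  have h5 := hε v
  by_cases h6 : A.eval z = true
  · rw [h3, if_pos h6]; ring
  · have h7 : chi (bd src tgt {v}) z ≠ ε v := fun h8 => h6 (h z h8)
    have h8 : (chi (bd src tgt {v}) z - ε v) * (chi (bd src tgt {v}) z + ε v) = 0 := by
      linear_combination h4 - h5
    have h9 : chi (bd src tgt {v}) z + ε v = 0 := by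
      rcases mul_eq_zero.mp h8 with h10 | h10
      · exact absurd (sub_eq_zero.mp h10) h7
      · exact h10
    rw [h3, if_neg h6]
    have h10 : chi (bd src tgt {v}) z = -ε v := by linarith
    rw [h10]
    linear_combination -h5

theorem levT_baseP (fam : PFam src tgt) {h k Kx w s cnt : ℕ} (hh : 4 ≤ h) (hwk : w ≤ k)
    (hkM : 20 * k ≤ fam.M) (hsize : w * (h + 18 * s) ≤ h * k) :
    LevT fam (PrP fam.M w k Kx h) 0 h k Kx w s cnt := by
  intro V v0 F ε hε _ Bs hs _ hrep As hAs hPr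
  refine hPr ⟨E → Bool, fam.P ε hε, F, fam.hM ε hε, fun A hA => ?_, fun A hA => ?_⟩
  · obtain ⟨Ah, h1, h2, h3⟩ := mid (fam.P ε hε) F k w h hh hwk (by rw [fam.hM]; exact hkM) v0
      (fun g => TD w g) A (by
        refine le_trans ?_ hsize
        have := hs A hA
        exact Nat.mul_le_mul_left _ (by omega)) (fun B hB hBl => by
        obtain ⟨g, h1, h2⟩ := hrep B (by
          show B ∈ (deep v0 0 Bs).flatMap (allInst v0)
          exact List.mem_flatMap.mpr ⟨A, hA, hB⟩) hBl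
        exact ⟨g, (fam.dg _ _ _ _).mpr (dg_of_TD h1), h1, h2⟩)
    exact ⟨vl Ah, Ah.len, h2, dg_vl h1, h3⟩
  · obtain ⟨h1, h2⟩ := hAs A hA
    exact ⟨fun B hB => (fam.dg _ _ _ _).mpr (h1 B hB), h2⟩

theorem world_top (fam : PFam src tgt) {M₀ k₀ K₀ h₀ J k Kx w s cnt : ℕ}
    (hlev : LevT fam (PrP M₀ w k₀ K₀ h₀) J 4 k Kx w s cnt) (hk : 16 ≤ k) (hw : 16 ≤ w)
    (hK : 1 ≤ fam.K) (hKM : 2 * Kx ≤ fam.M) (v0 : E) {ε : Wv → ℝ} (hε : ∀ v, ε v * ε v = 1)
    (hprod : ∏ v, ε v = -1) (Bs : List (Fm E)) (hs : ∀ B ∈ Bs, B.len ≤ s)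
    (hL : Bs.length ≤ cnt) (As : List (Fm E))
    (hAs : ∀ A ∈ As, A.vars.card ≤ Kx ∧ ∃ v : Wv, (bd src tgt {v}).card ≤ Kx ∧
      ∀ x, chi (bd src tgt {v}) x = ε v → A.eval x = true) :
    Wld M₀ w k₀ K₀ h₀ Bs As := by
  by_contra hno
  refine hlev E v0 (fun i z => z i) ε hε hprod Bs hs hL
    (fun B _ hB => ⟨hv (fun (i : E) (z : E → Bool) => z i) B, TD_mono (by omega) (td_hv B), ?_⟩)
    As (fun A hA => ?_) hno
  · refine ce_exact _ _ _ _ fun C hC => ?_
    rw [fam.dg]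
    intro T hT
    by_contra hne
    have h1 := W_ind_supp C T hne
    have h2 := Finset.card_le_card (h1.trans (vars_subs B C hC))
    have h3 := card_vars_le B
    omega
  · obtain ⟨hv, v, hv1, hev⟩ := hAs A hA
    refine ⟨fun B hB => ?_, ax_le fam hε hK hKM v hv1 A hv hev⟩
    intro T hT
    by_contra h1
    have h2 := W_ind_supp B T h1
    have h3 := Finset.card_le_card (h2.trans (vars_subs A B hB))
    omega

end Pool.Agent.H90.PC
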