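import Mathlib
import Pool.Agent.H90.PC.Base
import Pool.Agent.H3.Frg3.QTower
import Pool.Agent.H3.Ex.Lip
import Pool.Agent.H3.Ac.TowA

set_option autoImplicit false
set_option linter.unusedSectionVars false

/-!
# Module TOW: the tower of graphs, stopped at any level

Copy of `towerW` in `H3/Wd/Tow.lean` (= `towerT` in `H3/Ex/Tow.lean`) with the bottom graph of `tower` in
`H3/Frg3/QTower.lean` (`exists_super n`, degrees `dgf j` instead of `dgf (j + 1)`, `n` vertices instead of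
`(m + 1) ^ 2`), the numbers `Nz` (Defs.lean), the passive property `PrP`, and for all levels
`j0 ≤ j` at once.

* (base) For every graph with `LG src tgt (dgf j) 1000 1024` and `card Wv = n * ((k + 1) * 2 ^ k) ^ j`,
  `dgf j ≤ Dm`, and `j0 = j`: `PFam.bottom (2 * (Mt * Dm ^ (J - j))) (Mt * Dm ^ (J - j)) K …` as in `towerW`
  (`expd_of_ch hG.cheeger`, `card_bd_le3 hG.deg`, the fields `n1`, `n2`, `n3`, `n4`), then `levT_baseP` with
  `h = 4 * X ^ (J - j)`, `k = kt * Dm ^ (J - j)` (`k1`, `k2`, `s1`); `j - j = 0`. Prove this as a separate lemma.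
* `j = 0`: only `j0 = 0`.
* step `j + 1`: for `j0 = j + 1` the (base) lemma; for `j0 ≤ j` as in `towerW` with `levT_step`
  (`Pr = PrP (Mt * Dm ^ (J - j0)) w (kt * Dm ^ (J - j0)) (Kt * Dm ^ (J - j0)) (4 * X ^ (J - j0))`),
  `j + 1 - j0 = (j - j0) + 1` and
  `n * ((k + 1) * 2 ^ k) ^ j0 * ((k + 1) * 2 ^ k) ^ (J - j0) = n * ((k + 1) * 2 ^ k) ^ J`.
-/

namespace Pool.Agent.H90.PC

open Finset Pool.Agent.H3.Frg Pool.Agent.H3.Frg2 Pool.Agent.H3.Frg3 Pool.Agent.H3.Frg4
  Pool.Agent.H3.Ex Pool.Agent.H3.Ac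

/-- the recursion may start at any level graph -/
theorem tower_base {E Wv : Type} [Fintype E] [DecidableEq E] [Fintype Wv] [DecidableEq Wv]
    {src tgt : E → Wv} {D0 : ℕ} (hG : LG src tgt D0 1000 1024) {J' Dm : ℕ} (hD0 : D0 ≤ Dm)
    (hDm : 1 ≤ Dm)
    {k t w X kt Kt Mt K s ℓ cnt lam κ L1 : ℕ} {u0 u1 η : ℝ}
    (hN : Nz J' (Fintype.card Wv) k t w X Dm kt Kt Mt K s ℓ cnt lam κ L1 u0 u1 η) :
    ∃ fam : PFam src tgt, fam.M = Mt * Dm ^ J' ∧ fam.K = K ∧
      LevT fam (PrP (Mt * Dm ^ J') w (kt * Dm ^ J') (Kt * Dm ^ J') (4 * X ^ J')) 0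
        (4 * X ^ J') (kt * Dm ^ J') (Kt * Dm ^ J') w s cnt := by
  have hx : Expd src tgt (2 * (Mt * Dm ^ J')) :=
    expd_of_ch hG.cheeger hN.n2 (by have := hN.n1; omega)
  have hKbot : ∀ O : Finset Wv, O.card ≤ K →
      Mt * Dm ^ J' + (bd src tgt O).card ≤ 2 * (Mt * Dm ^ J') := by
    intro O hO
    have h1 : (bd src tgt O).card ≤ D0 * O.card := card_bd_le3 hG.deg O
    have h2 := hN.n4
    have h3 : D0 * O.card ≤ Dm * K := Nat.mul_le_mul hD0 hO
    omega
  have hX : 4 ≤ 4 * X ^ J' := Nat.le_mul_of_pos_right _ (Nat.pow_pos hN.x1)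
  have hwkt : w ≤ kt := by
    refine le_trans ?_ hN.k1
    exact Nat.le_mul_of_pos_right _ (by omega)
  have hD1 : 1 ≤ Dm ^ J' := Nat.one_le_pow _ _ hDm
  refine ⟨PFam.bottom (2 * (Mt * Dm ^ J')) (Mt * Dm ^ J') K hx le_rfl hN.n3 hKbot, rfl, rfl, ?_⟩
  refine levT_baseP (PFam.bottom (2 * (Mt * Dm ^ J')) (Mt * Dm ^ J') K hx le_rfl hN.n3 hKbot) hX
    (hwkt.trans (Nat.le_mul_of_pos_right _ hD1)) ?_ hN.s1
  show 20 * (kt * Dm ^ J') ≤ Mt * Dm ^ J'
  rw [← mul_assoc]
  exact Nat.mul_le_mul_right _ hN.k2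

theorem towerP {J n k Dm : ℕ} (hJD : dgf J ≤ Dm) (hn1 : 1000 ≤ n) (j : ℕ) : j ≤ J →
    ∃ (E Wv : Type) (_ : Fintype E) (_ : DecidableEq E) (_ : Fintype Wv) (_ : DecidableEq Wv)
      (src tgt : E → Wv), LG src tgt (dgf j) 1000 1024 ∧
      Fintype.card Wv = n * ((k + 1) * 2 ^ k) ^ j ∧
      Fintype.card E ≤ dgf j * Fintype.card Wv ∧
      ∀ j0 ≤ j, ∀ (t w X kt Kt Mt K s ℓ cnt lam κ L1 : ℕ) (u0 u1 η : ℝ),
      Nz (J - j0) (n * ((k + 1) * 2 ^ k) ^ j0) k t w X Dm kt Kt Mt K s ℓ cnt lam κ L1 u0 u1 η →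
      ∃ fam : PFam src tgt, fam.M = Mt * Dm ^ (J - j) ∧ fam.K = K ∧
      LevT fam (PrP (Mt * Dm ^ (J - j0)) w (kt * Dm ^ (J - j0)) (Kt * Dm ^ (J - j0))
          (4 * X ^ (J - j0))) (j - j0)
        (4 * X ^ (J - j)) (kt * Dm ^ (J - j)) (Kt * Dm ^ (J - j)) w s cnt := by
  have hDm : 80 ≤ Dm := (one_le_dgf J).trans hJD
  have hDp : ∀ i : ℕ, 1 ≤ Dm ^ i := fun i => Nat.one_le_pow _ _ (by omega)
  have hle : ∀ a i : ℕ, a ≤ a * Dm ^ i := fun a i => Nat.le_mul_of_pos_right _ (hDp i)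
  induction j with
  | zero =>
    intro _
    obtain ⟨E, iE, iD, src, tgt, hG, hE⟩ := exists_super n hn1
    have hcardW : Fintype.card (Fin n) = n := Fintype.card_fin n
    have hLG : LG src tgt (dgf 0) 1000 1024 :=
      ⟨hG.loopless, hG.deg, hG.cheeger, fun X hX hXn => hG.peel X hX (by omega)⟩
    refine ⟨E, Fin n, iE, iD, inferInstance, inferInstance, src, tgt, hLG, ?_, ?_, ?_⟩
    · rw [hcardW]; simp
    · rw [hcardW]
      refine hE.trans ?_
      exact Nat.mul_le_mul_right _ (by decide)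
    · intro j0 hj0 t w X kt Kt Mt K s ℓ cnt lam κ L1 u0 u1 η hN
      obtain rfl : j0 = 0 := by omega
      have hN' : Nz (J - 0) (Fintype.card (Fin n)) k t w X Dm kt Kt Mt K s ℓ cnt lam κ L1 u0 u1 η := by
        rw [hcardW]
        simpa using hN
      exact tower_base hLG ((dgf_mono (Nat.zero_le J)).trans hJD) (by omega) hN'
  | succ j ih =>
    intro hj
    obtain ⟨E', Wv', iE', iDE', iW', iDW', src', tgt', hG, hcW, hcE, hlev⟩ :=
      ih (by omega)
    have hD1 : 1 ≤ dgf j := le_trans (by norm_num) (one_le_dgf j)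
    have hDjDm : dgf j ≤ Dm := (dgf_mono (by omega)).trans hJD
    have hDj2 : dgf (j + 1) ≤ Dm := (dgf_mono (by omega)).trans hJD
    have hDm1 : 1 ≤ Dm := by omega
    have hdegm : ∀ w, (bd src' tgt' {w}).card ≤ Dm := fun w => (hG.deg w).trans hDjDm
    have hkk : 1 ≤ (k + 1) * 2 ^ k := Nat.mul_pos (by omega) (by positivity)
    have hnW : n ≤ Fintype.card Wv' := by
      rw [hcW]; exact Nat.le_mul_of_pos_right _ (Nat.pow_pos hkk)
    have hWN : Fintype.card Wv' ≤ n * ((k + 1) * 2 ^ k) ^ J := by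
      rw [hcW]
      exact Nat.mul_le_mul_left _ (Nat.pow_le_pow_right hkk (by omega))
    have hEN : Fintype.card E' ≤ Dm * (n * ((k + 1) * 2 ^ k) ^ J) :=
      hcE.trans (Nat.mul_le_mul hDjDm hWN)
    have hcNV : Fintype.card (NV Wv' k) = Fintype.card Wv' * ((k + 1) * 2 ^ k) := card_NV
    have hnNV : n ≤ Fintype.card (NV Wv' k) := by
      rw [hcNV]; exact hnW.trans (Nat.le_mul_of_pos_right _ hkk)
    obtain ⟨R, iR, iDR, rsrc, rtgt, r1, r2, r3, r4, r5⟩ :=
      exists_rgraph (dgf j + 4) (NV Wv' k) (by omega)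
    have hLG := net_LG hG.loopless hG.deg r1 r2 r3 r4
    have hdeq : dgf j + 4 + (2 * (dgf j + 4) + 280) = dgf (j + 1) := by
      show _ = 3 * dgf j + 292
      ring
    rw [hdeq] at hLG
    have hst := net_stg (k := k) hDm1 hG.loopless hdegm rsrc rtgt
    have hneW : Nonempty Wv' := Fintype.card_pos_iff.mp (by omega)
    have hneC : Nonempty (Ch E' Wv' k) := ⟨(fun _ _ => false, fun _ _ => false)⟩
    have hconn : Pool.Agent.H3.Frg3.Con (nsrc src' rsrc) (ntgt tgt' rtgt) := con_of_cheeger hLG.cheeger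
    refine ⟨NE E' Wv' k R, NV Wv' k, inferInstance, inferInstance, inferInstance, inferInstance,
      nsrc src' rsrc, ntgt tgt' rtgt, hLG, ?_, ?_, ?_⟩
    · rw [hcNV, hcW, pow_succ]; ring
    · rw [card_NE]
      have h1 : Fintype.card E' * 2 ^ k ≤ dgf j * (Fintype.card Wv' * ((k + 1) * 2 ^ k)) := by
        calc Fintype.card E' * 2 ^ k ≤ dgf j * Fintype.card Wv' * 2 ^ k :=
              Nat.mul_le_mul_right _ hcE
          _ = dgf j * (Fintype.card Wv' * (1 * 2 ^ k)) := by ring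
          _ ≤ _ := Nat.mul_le_mul_left _ (Nat.mul_le_mul_left _ (Nat.mul_le_mul_right _
              (by omega)))
      have h2 : Fintype.card Wv' * (k * (2 ^ k * 2))
          ≤ 2 * (Fintype.card Wv' * ((k + 1) * 2 ^ k)) := by
        calc Fintype.card Wv' * (k * (2 ^ k * 2)) = 2 * (Fintype.card Wv' * (k * 2 ^ k)) := by
              ring
          _ ≤ _ := Nat.mul_le_mul_left _ (Nat.mul_le_mul_left _ (Nat.mul_le_mul_right _
              (by omega)))
      rw [hcNV] at r5 ⊢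
      have h3 : dgf (j + 1) * (Fintype.card Wv' * ((k + 1) * 2 ^ k))
          = dgf j * (Fintype.card Wv' * ((k + 1) * 2 ^ k))
            + 2 * (Fintype.card Wv' * ((k + 1) * 2 ^ k))
            + (dgf j + 4 + 140) * (Fintype.card Wv' * ((k + 1) * 2 ^ k))
            + (dgf j + 146) * (Fintype.card Wv' * ((k + 1) * 2 ^ k)) := by
        show (3 * dgf j + 292) * _ = _
        ring
      rw [h3]
      omega
    · intro j0 hj0 t w X kt Kt Mt K s ℓ cnt lam κ L1 u0 u1 η hN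
      rcases Nat.lt_or_ge j j0 with hjj | hjj
      · -- the recursion starts here
        obtain rfl : j0 = j + 1 := by omega
        have hcard : Fintype.card (NV Wv' k) = n * ((k + 1) * 2 ^ k) ^ (j + 1) := by
          rw [hcNV, hcW, pow_succ]; ring
        rw [← hcard] at hN
        rw [Nat.sub_self]
        exact tower_base hLG hDj2 (by omega) hN
      have hX : ∀ i : ℕ, 4 ≤ 4 * X ^ i := fun i =>
        Nat.le_mul_of_pos_right _ (Nat.pow_pos hN.x1)
      obtain ⟨fam', hfM, hfK, hlev⟩ := hlev j0 hjj t w X kt Kt Mt K s ℓ cnt lam κ L1 u0 u1 η hN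
      have hsub : J - j = (J - (j + 1)) + 1 := by omega
      have hsub2 : j + 1 - j0 = (j - j0) + 1 := by omega
      rw [hsub2]
      -- sizes
      have hn0W : n * ((k + 1) * 2 ^ k) ^ j0 ≤ Fintype.card Wv' := by
        rw [hcW]
        exact Nat.mul_le_mul_left _ (Nat.pow_le_pow_right hkk hjj)
      have hNN : n * ((k + 1) * 2 ^ k) ^ j0 * ((k + 1) * 2 ^ k) ^ (J - j0) =
          n * ((k + 1) * 2 ^ k) ^ J := by
        rw [mul_assoc, ← pow_add]
        congr 2
        omega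
      have hka := hN.ka
      have hl1 := hN.l1
      have hc1 := hN.c1
      rw [hNN] at hka hl1 hc1
      set i := J - (j + 1) with hi
      rw [hsub] at hfM hlev
      have hDM : Dm * (Mt * Dm ^ i) ≤ fam'.M := by
        rw [hfM]
        exact le_of_eq (by rw [pow_succ]; ring)
      have hwkt : w ≤ kt := by
        refine le_trans ?_ hN.k1
        exact Nat.le_mul_of_pos_right _ (by omega)
      have hKh : (1:ℝ) ≤ (Kh Dm 1000 : ℝ) := by
        have : 1 ≤ Kh Dm 1000 := by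
          unfold Kh
          exact Nat.mul_pos (by norm_num) (by positivity)
        exact_mod_cast this
      have hu1 : 1 ≤ u1 := by
        refine le_trans ?_ hN.a1
        have := one_le_pow₀ hKh (n := 1 + Dm)
        linarith
      have hu0 : 1 ≤ u0 := (one_le_pow₀ hu1).trans hN.a0
      have hDmR : (0:ℝ) < Dm := by exact_mod_cast hDm1
      have hη0 : 0 < η := by
        refine lt_of_lt_of_le ?_ hN.e1
        positivity
      refine ⟨fam'.up hst hconn (Mt * Dm ^ i) hDM, rfl, hfK, ?_⟩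
      have hfM' : Mt ≤ fam'.M := by rw [hfM]; exact hle _ _
      refine levT_step (c0 := 1000) (H := 1 + 72 * X) (t := t) fam' hst
        (gx_of_lg hLG hDj2 hDm1) (gx_of_lg hG hDjDm hDm1) hconn hη0 ?_ hN.e2 hN.e3 (by omega)
        hN.t1 (lt_of_lt_of_le hN.g1 hn0W) hN.la ?_ hN.a1 hN.a0 ?_ (lt_of_lt_of_le hN.bu hn0W)
        hN.dp (by rw [hfK]; exact hN.kk) (hN.mm.trans hfM') (lt_of_lt_of_le hN.qq hn0W)
        hlev (Mt * Dm ^ i) hDM ?_ ?_ (hX i) (hwkt.trans (hle _ _)) (hwkt.trans (hle _ _)) ?_ ?_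
        ?_ ?_
      · intro v u S e
        have h1 := net_lip (R := R) hDm1 hG.loopless hdegm hu0 v u S e
        have h3 : (1 + Dm * u0 ^ (2 * Dm) / 2 ^ k : ℝ) ≤ 1 + η := by
          have := hN.e1
          linarith
        have h4 : ∀ S' : Finset (NE E' Wv' k R),
            0 ≤ Phu src' tgt' ncen (nlvi R src' tgt') u0 v u S' := by
          intro S'
          exact Finset.sum_nonneg fun c _ => by positivity
        have h5 : Phu src' tgt' ncen (nlvi R src' tgt') u0 v u (symmDiff S {e}) ≤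
            (1 + Dm * u0 ^ (2 * Dm) / 2 ^ k) *
              Phu src' tgt' ncen (nlvi R src' tgt') u0 v u S := by
          exact h1
        exact h5.trans (mul_le_mul_of_nonneg_right h3 (h4 S))
      · exact lt_of_le_of_lt (Nat.mul_le_mul_right _ hEN) hka
      · exact lt_of_le_of_lt (Nat.mul_le_mul_right _ hWN) hl1
      · exact le_of_eq (by rw [pow_succ]; ring)
      · exact le_of_eq (by rw [pow_succ]; ring)
      · show 20 * (kt * Dm ^ i) ≤ Mt * Dm ^ i
        rw [← mul_assoc]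
        exact Nat.mul_le_mul_right _ hN.k2
      · calc w * (4 * X ^ i + 18 * (4 * (4 * X ^ (i + 1))))
            = 4 * X ^ i * (w * (1 + 72 * X)) := by rw [pow_succ]; ring
          _ ≤ 4 * X ^ i * (kt * Dm ^ i) := Nat.mul_le_mul_left _ (hN.k1.trans (hle _ _))
      · rw [pow_succ]
        exact le_of_eq (by ring)
      · refine lt_of_le_of_lt ?_ hc1
        have h1 : cnt * (3 * (s + 3 * (j - j0 + 1)) ^ 2) ^ (j - j0 + 1)
            ≤ cnt * (3 * (s + 3 * (J - j0)) ^ 2) ^ (J - j0) := by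
          refine Nat.mul_le_mul_left _ ?_
          calc (3 * (s + 3 * (j - j0 + 1)) ^ 2) ^ (j - j0 + 1) ≤
                (3 * (s + 3 * (J - j0)) ^ 2) ^ (j - j0 + 1) :=
                Nat.pow_le_pow_left (Nat.mul_le_mul_left _ (Nat.pow_le_pow_left
                  (by omega) 2)) _
            _ ≤ _ := Nat.pow_le_pow_right (Nat.mul_pos (by norm_num)
                (Nat.pow_pos (by omega))) (by omega)
        have h2 : ((cnt * (3 * (s + 3 * (j - j0 + 1)) ^ 2) ^ (j - j0 + 1) : ℕ) : ℝ)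
            ≤ ((cnt * (3 * (s + 3 * (J - j0)) ^ 2) ^ (J - j0) : ℕ) : ℝ) := by exact_mod_cast h1
        have h3 : (Fintype.card Wv' : ℝ) ≤ ((n * ((k + 1) * 2 ^ k) ^ J : ℕ) : ℝ) := by
          exact_mod_cast hWN
        exact mul_le_mul_of_nonneg_right (mul_le_mul h2 h3 (Nat.cast_nonneg _)
          (Nat.cast_nonneg _)) (by norm_num)

end Pool.Agent.H90.PC
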