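import Mathlib
import Pool.Agent.H90.PC.Defs
import Pool.Agent.H3.Frg2.Taut
import Pool.Agent.H3.Frg4.Cnf
import Pool.Agent.H3.Frg2.Small
import Pool.Agent.H3.Frg2.Decomp

set_option autoImplicit false
set_option linter.unusedSectionVars false

/-!
# Module TR: formulas that are never opened are replaced by a variable

`O` is the set of formulas that may be opened, `T` a set of formulas closed under subformulas
(the subformulas of the derived formula). `IsDerO`, `BC` are in `Stmt.lean`, `Op` in `Defs.lean`,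
`IsDer` in `H3/Frg4/Defs4.lean`, `Fm.bind` in `H3/Frg2/Stmt.lean`, `Fm.subs`, `Fm.len` in
`H3/Frg2/Defs.lean`; `mem_subs_self` in `H3/Frg2/Small.lean`, `Fm_len_pos` in `H3/Frg2/Decomp.lean`.

**Definition** (in the proof of `translate0`). Call `A` *active* if `A ∈ T`, or `A ∈ O` and `A` is a
line `pf k`, or there are `i`, `ψ ∈ Sch`, `σ` with `pf i = ψ.bind σ`, such that `Y.bind σ ∈ O` for ALL
`Y ∈ ψ.subs` which are not variables, and `A = X.bind σ` for some `X ∈ ψ.subs` which is not a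
variable. Active formulas are in `O`. Define (classically, by structural recursion)
`f (var i) = if var i ∈ T then var i else var v0`,
`f (neg A) = if neg A active then neg (f A) else var v0`,
`f (imp A B) = if imp A B active then imp (f A) (f B) else var v0`.

* `f A = A` for `A ∈ T` (induction; `hT` gives that the immediate subformulas are in `T`).
* `(f A).len ≤ A.len` by induction (`1 ≤ A.len`).
* If `pf i = ψ.bind σ` and `Y.bind σ ∈ O` for all non-variable `Y ∈ ψ.subs`, then all these `Y.bind σ` are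
  active and `f (Y.bind σ) = Y.bind (fun m => f (σ m))` for all `Y ∈ ψ.subs` (induction on `Y`; subformulas
  of subformulas are subformulas).
* So `fun i => f (pf i)` is a derivation: `pf i ∈ Γ ⊆ T`: `f (pf i) = pf i`. Scheme: previous item for
  `Y = ψ`. Modus ponens: `pf k = imp (pf j) (pf i) ∈ O` is a line, hence active, so
  `f (pf k) = imp (f (pf j)) (f (pf i))`.
* `BC {B | B ∈ P ∨ B ∉ O} A → BC {B | B = var v0 ∨ ∃ D ∈ P, B = f D} (f A)`: induction. Base, `A ∈ P`: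
  clear. Base, `A ∉ O`: `A` is not active and not in `T`, so `f A = var v0` in all three cases.
  `neg A`: if `neg A` is active then `f (neg A) = neg (f A)`, otherwise `var v0`.
* `g ∈ (f A).subs` implies `g = var v` or `g ∈ T` or `Op Sch (fun i => f (pf i)) g`: induction on `A`.
  `A = neg A'` active: `g = neg (f A') = f A` or `g ∈ (f A').subs`. If `A ∈ T` then `f A = A ∈ T`. If `A` is
  the line `pf k` then `f A = f (pf k)`: `Op`. If `A = X.bind σ` as above then `f A = X.bind (f ∘ σ)` and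
  `f (pf i) = ψ.bind (f ∘ σ)`: `Op`.

`translate` is `translate0` followed by the renaming `A ↦ A.ren g` of variables (`Fm.ren`, `ren_bind` in
`H3/Frg2/Taut.lean`, `isDer_ren` in `H3/Frg4/Cnf.lean`, `len_ren`); one needs that `BC` and `Op` are
preserved by renaming and `(A.ren g).subs = A.subs.map (fun B => B.ren g)`.
-/

namespace Pool.Agent.H90.PC

open Finset Pool.Agent.H3.Frg Pool.Agent.H3.Frg2 Pool.Agent.H3.Frg3 Pool.Agent.H3.Frg4

/-- active formulas: those which may be opened and are opened, and those in `T` -/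
def TrAct {V : Type} (Sch : Set (Fm ℕ)) (O T : Set (Fm V)) {L : ℕ} (pf : Fin L → Fm V)
    (A : Fm V) : Prop :=
  A ∈ T ∨ (A ∈ O ∧ ∃ k, A = pf k) ∨
    ∃ i, ∃ ψ ∈ Sch, ∃ σ : ℕ → Fm V, pf i = ψ.bind σ ∧
      (∀ Y ∈ ψ.subs, (∀ m, Y ≠ Fm.var m) → Y.bind σ ∈ O) ∧
      ∃ X ∈ ψ.subs, (∀ m, X ≠ Fm.var m) ∧ A = X.bind σ

open Classical in
/-- formulas that are not active are replaced by the variable `v0` -/
noncomputable def trF {V : Type} (v0 : V) (T : Set (Fm V)) (Ac : Fm V → Prop) : Fm V → Fm V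
  | Fm.var i => if Fm.var i ∈ T then Fm.var i else Fm.var v0
  | Fm.neg A => if Ac (Fm.neg A) then Fm.neg (trF v0 T Ac A) else Fm.var v0
  | Fm.imp A B => if Ac (Fm.imp A B) then Fm.imp (trF v0 T Ac A) (trF v0 T Ac B) else Fm.var v0

theorem trF_neg {V : Type} (v0 : V) (T : Set (Fm V)) (Ac : Fm V → Prop) {A : Fm V}
    (h : Ac (Fm.neg A)) : trF v0 T Ac (Fm.neg A) = Fm.neg (trF v0 T Ac A) := by
  rw [trF, if_pos h]

theorem trF_imp {V : Type} (v0 : V) (T : Set (Fm V)) (Ac : Fm V → Prop) {A B : Fm V}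
    (h : Ac (Fm.imp A B)) :
    trF v0 T Ac (Fm.imp A B) = Fm.imp (trF v0 T Ac A) (trF v0 T Ac B) := by
  rw [trF, if_pos h]

theorem trF_neg' {V : Type} (v0 : V) (T : Set (Fm V)) (Ac : Fm V → Prop) {A : Fm V}
    (h : ¬ Ac (Fm.neg A)) : trF v0 T Ac (Fm.neg A) = Fm.var v0 := by
  rw [trF, if_neg h]

theorem trF_imp' {V : Type} (v0 : V) (T : Set (Fm V)) (Ac : Fm V → Prop) {A B : Fm V}
    (h : ¬ Ac (Fm.imp A B)) : trF v0 T Ac (Fm.imp A B) = Fm.var v0 := by
  rw [trF, if_neg h]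

theorem subs_trans {V : Type} {A B C : Fm V} (h1 : A ∈ B.subs) (h2 : B ∈ C.subs) :
    A ∈ C.subs := by
  induction C with
  | var i =>
    rw [Fm.subs, List.mem_singleton] at h2
    rw [h2] at h1; exact h1
  | neg C ih =>
    rw [Fm.subs, List.mem_cons] at h2
    rcases h2 with h2 | h2
    · rw [h2] at h1; exact h1
    · rw [Fm.subs]; exact List.mem_cons_of_mem _ (ih h2)
  | imp C D ihC ihD =>
    rw [Fm.subs, List.mem_cons, List.mem_append] at h2
    rcases h2 with h2 | h2 | h2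
    · rw [h2] at h1; exact h1
    · rw [Fm.subs]; exact List.mem_cons_of_mem _ (List.mem_append_left _ (ihC h2))
    · rw [Fm.subs]; exact List.mem_cons_of_mem _ (List.mem_append_right _ (ihD h2))

theorem mem_subs_refl {V : Type} (A : Fm V) : A ∈ A.subs := by
  cases A <;> simp [Fm.subs]

theorem trF_T {V : Type} (v0 : V) {T : Set (Fm V)} {Ac : Fm V → Prop}
    (hT : ∀ A ∈ T, ∀ B ∈ A.subs, B ∈ T) (hAc : ∀ A ∈ T, Ac A) (A : Fm V) (hA : A ∈ T) :
    trF v0 T Ac A = A := by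
  induction A with
  | var i => rw [trF, if_pos hA]
  | neg A ih =>
    rw [trF_neg v0 T Ac (hAc _ hA), ih (hT _ hA _ _)]
    rw [Fm.subs]; exact List.mem_cons_of_mem _ (mem_subs_refl A)
  | imp A B ihA ihB =>
    rw [trF_imp v0 T Ac (hAc _ hA), ihA (hT _ hA _ _), ihB (hT _ hA _ _)]
    · rw [Fm.subs]; exact List.mem_cons_of_mem _ (List.mem_append_right _ (mem_subs_refl B))
    · rw [Fm.subs]; exact List.mem_cons_of_mem _ (List.mem_append_left _ (mem_subs_refl A))

theorem trF_len {V : Type} (v0 : V) (T : Set (Fm V)) (Ac : Fm V → Prop) (A : Fm V) :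
    (trF v0 T Ac A).len ≤ A.len := by
  classical
  induction A with
  | var i =>
    rw [trF]; split_ifs <;> exact le_refl _
  | neg A ih =>
    by_cases h : Ac (Fm.neg A)
    · rw [trF_neg v0 T Ac h]; simp only [Fm.len]; omega
    · rw [trF_neg' v0 T Ac h]; exact Fm_len_pos _
  | imp A B ihA ihB =>
    by_cases h : Ac (Fm.imp A B)
    · rw [trF_imp v0 T Ac h]; simp only [Fm.len]; omega
    · rw [trF_imp' v0 T Ac h]; exact Fm_len_pos _

theorem trF_bind {V : Type} (v0 : V) (T : Set (Fm V)) (Ac : Fm V → Prop) (σ : ℕ → Fm V)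
    (Y : Fm ℕ) (h : ∀ Z ∈ Y.subs, (∀ m, Z ≠ Fm.var m) → Ac (Z.bind σ)) :
    trF v0 T Ac (Y.bind σ) = Y.bind fun m => trF v0 T Ac (σ m) := by
  induction Y with
  | var i => rfl
  | neg A ih =>
    have h1 : Ac (Fm.neg (A.bind σ)) := h (Fm.neg A) (mem_subs_refl _) (fun m hm => by cases hm)
    show trF v0 T Ac (Fm.neg (A.bind σ)) = Fm.neg _
    rw [trF_neg v0 T Ac h1, ih fun Z hZ => h Z (by
      rw [Fm.subs]; exact List.mem_cons_of_mem _ hZ)]
  | imp A B ihA ihB =>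
    have h1 : Ac (Fm.imp (A.bind σ) (B.bind σ)) :=
      h (Fm.imp A B) (mem_subs_refl _) (fun m hm => by cases hm)
    show trF v0 T Ac (Fm.imp (A.bind σ) (B.bind σ)) = Fm.imp _ _
    rw [trF_imp v0 T Ac h1, ihA fun Z hZ => h Z (by
      rw [Fm.subs]; exact List.mem_cons_of_mem _ (List.mem_append_left _ hZ)),
      ihB fun Z hZ => h Z (by
      rw [Fm.subs]; exact List.mem_cons_of_mem _ (List.mem_append_right _ hZ))]

theorem translate0 {V : Type} (v0 : V) {Sch : Set (Fm ℕ)} {O Γ T : Set (Fm V)}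
    (hT : ∀ A ∈ T, ∀ B ∈ A.subs, B ∈ T) (hTO : ∀ A ∈ T, A ∈ O) (hΓ : ∀ A ∈ Γ, A ∈ T)
    {L : ℕ} {pf : Fin L → Fm V} (hpf : IsDerO Sch O Γ pf) :
    ∃ f : Fm V → Fm V, IsDer Sch Γ (fun i => f (pf i)) ∧ (∀ A ∈ T, f A = A) ∧
      (∀ A, (f A).len ≤ A.len) ∧
      (∀ (P : Set (Fm V)) (A : Fm V), BC {B | B ∈ P ∨ B ∉ O} A →
        BC {B | B = Fm.var v0 ∨ ∃ D ∈ P, B = f D} (f A)) ∧
      ∀ A, ∀ g ∈ (f A).subs, (∃ v, g = Fm.var v) ∨ g ∈ T ∨ Op Sch (fun i => f (pf i)) g := by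
  classical
  set Ac : Fm V → Prop := TrAct Sch O T pf with hAcd
  have hAcT : ∀ A ∈ T, Ac A := fun A hA => Or.inl hA
  have hAcO : ∀ A, Ac A → A ∈ O := by
    intro A hA
    rcases hA with hA | ⟨hA, _⟩ | ⟨i, ψ, hψ, σ, h1, h2, X, hX, hX', h3⟩
    · exact hTO A hA
    · exact hA
    · rw [h3]; exact h2 X hX hX'
  have hb : ∀ i, ∀ ψ ∈ Sch, ∀ σ : ℕ → Fm V, pf i = ψ.bind σ →
      (∀ Y ∈ ψ.subs, (∀ m, Y ≠ Fm.var m) → Y.bind σ ∈ O) → ∀ X ∈ ψ.subs,
      trF v0 T Ac (X.bind σ) = X.bind fun m => trF v0 T Ac (σ m) := by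
    intro i ψ hψ σ h1 h2 X hX
    refine trF_bind v0 T Ac σ X fun Z hZ hZ' => ?_
    exact Or.inr (Or.inr ⟨i, ψ, hψ, σ, h1, h2, Z, subs_trans hZ hX, hZ', rfl⟩)
  refine ⟨trF v0 T Ac, ?_, ?_, ?_, ?_, ?_⟩
  · intro i
    rcases hpf i with h1 | ⟨ψ, hψ, σ, h1, h2⟩ | ⟨j, k, hj, hk, h1, h2⟩
    · left
      show trF v0 T Ac (pf i) ∈ Γ
      rw [trF_T v0 hT hAcT _ (hΓ _ h1)]; exact h1
    · right; left
      refine ⟨ψ, hψ, fun m => trF v0 T Ac (σ m), ?_⟩
      show trF v0 T Ac (pf i) = _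
      rw [h1]
      exact hb i ψ hψ σ h1 h2 ψ (mem_subs_refl ψ)
    · right; right
      refine ⟨j, k, hj, hk, ?_⟩
      show trF v0 T Ac (pf k) = Fm.imp (trF v0 T Ac (pf j)) (trF v0 T Ac (pf i))
      have h3 : Ac (pf k) := Or.inr (Or.inl ⟨h2, k, rfl⟩)
      rw [h1] at h3
      rw [h1, trF_imp v0 T Ac h3]
  · exact fun A hA => trF_T v0 hT hAcT A hA
  · exact fun A => trF_len v0 T Ac A
  · intro P A hA
    induction hA with
    | base A hA =>
      rcases hA with hA | hA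
      · exact BC.base _ (Or.inr ⟨A, hA, rfl⟩)
      · refine BC.base _ (Or.inl ?_)
        have hn : ¬ Ac A := fun h => hA (hAcO A h)
        cases A with
        | var i => rw [trF, if_neg fun h => hn (hAcT _ h)]
        | neg A => exact trF_neg' v0 T Ac hn
        | imp A B => exact trF_imp' v0 T Ac hn
    | neg A hA ih =>
      by_cases h : Ac (Fm.neg A)
      · rw [trF_neg v0 T Ac h]; exact BC.neg _ ih
      · rw [trF_neg' v0 T Ac h]; exact BC.base _ (Or.inl rfl)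
    | imp A B hA hB ihA ihB =>
      by_cases h : Ac (Fm.imp A B)
      · rw [trF_imp v0 T Ac h]; exact BC.imp _ _ ihA ihB
      · rw [trF_imp' v0 T Ac h]; exact BC.base _ (Or.inl rfl)
  · have hact : ∀ A, Ac A → trF v0 T Ac A ∈ T ∨
        Op Sch (fun i => trF v0 T Ac (pf i)) (trF v0 T Ac A) := by
      intro A hA
      rcases hA with hA | ⟨hA, k, hk⟩ | ⟨i, ψ, hψ, σ, h1, h2, X, hX, hX', h3⟩
      · left; rw [trF_T v0 hT hAcT A hA]; exact hA
      · right
        refine ⟨k, Or.inl ?_⟩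
        rw [hk]
      · right
        refine ⟨i, Or.inr ⟨ψ, hψ, fun m => trF v0 T Ac (σ m), ?_, X, hX, ?_⟩⟩
        · show trF v0 T Ac (pf i) = _
          rw [h1]
          exact hb i ψ hψ σ h1 h2 ψ (mem_subs_refl ψ)
        · rw [h3]
          exact hb i ψ hψ σ h1 h2 X hX
    intro A
    induction A with
    | var i =>
      intro g hg
      left
      rw [trF] at hg
      split_ifs at hg
      · rw [Fm.subs, List.mem_singleton] at hg; exact ⟨i, hg⟩
      · rw [Fm.subs, List.mem_singleton] at hg; exact ⟨v0, hg⟩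
    | neg A ih =>
      intro g hg
      by_cases h : Ac (Fm.neg A)
      · have h4 := hact _ h
        rw [trF_neg v0 T Ac h] at hg h4
        rw [Fm.subs, List.mem_cons] at hg
        rcases hg with hg | hg
        · rw [hg]; exact Or.inr h4
        · exact ih g hg
      · rw [trF_neg' v0 T Ac h, Fm.subs, List.mem_singleton] at hg
        exact Or.inl ⟨v0, hg⟩
    | imp A B ihA ihB =>
      intro g hg
      by_cases h : Ac (Fm.imp A B)
      · have h4 := hact _ h
        rw [trF_imp v0 T Ac h] at hg h4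
        rw [Fm.subs, List.mem_cons, List.mem_append] at hg
        rcases hg with hg | hg | hg
        · rw [hg]; exact Or.inr h4
        · exact ihA g hg
        · exact ihB g hg
      · rw [trF_imp' v0 T Ac h, Fm.subs, List.mem_singleton] at hg
        exact Or.inl ⟨v0, hg⟩

theorem subs_ren {U V : Type} (g : U → V) (A : Fm U) :
    (A.ren g).subs = A.subs.map fun B => B.ren g := by
  induction A with
  | var i => rfl
  | neg A ih => simp only [Fm.ren, Fm.subs, ih, List.map_cons]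
  | imp A B ihA ihB => simp only [Fm.ren, Fm.subs, ihA, ihB, List.map_cons, List.map_append]

theorem bc_ren {U V : Type} (g : U → V) {P : Set (Fm U)} {Q : Set (Fm V)}
    (hPQ : ∀ A ∈ P, A.ren g ∈ Q) {A : Fm U} (hA : BC P A) : BC Q (A.ren g) := by
  induction hA with
  | base A hA => exact BC.base _ (hPQ A hA)
  | neg A hA ih => exact BC.neg _ ih
  | imp A B hA hB ihA ihB => exact BC.imp _ _ ihA ihB

theorem op_ren {U V : Type} (g : U → V) {Sch : Set (Fm ℕ)} {L : ℕ} {pf : Fin L → Fm U}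
    {A : Fm U} (h : Op Sch pf A) : Op Sch (fun i => (pf i).ren g) (A.ren g) := by
  obtain ⟨i, h | ⟨ψ, hψ, σ, h1, X, hX, h2⟩⟩ := h
  · exact ⟨i, Or.inl (by rw [h])⟩
  · refine ⟨i, Or.inr ⟨ψ, hψ, fun m => (σ m).ren g, ?_, X, hX, ?_⟩⟩
    · show (pf i).ren g = _
      rw [h1, ren_bind]
    · rw [h2, ren_bind]

theorem translate {U V : Type} (g : U → V) (v0 : U) {Sch : Set (Fm ℕ)} {O Γ T : Set (Fm U)}
    (hT : ∀ A ∈ T, ∀ B ∈ A.subs, B ∈ T) (hTO : ∀ A ∈ T, A ∈ O) (hΓ : ∀ A ∈ Γ, A ∈ T)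
    {L : ℕ} {pf : Fin L → Fm U} (hpf : IsDerO Sch O Γ pf) :
    ∃ f : Fm U → Fm V, IsDer Sch ((fun A => A.ren g) '' Γ) (fun i => f (pf i)) ∧
      (∀ A ∈ T, f A = A.ren g) ∧ (∀ A, (f A).len ≤ A.len) ∧
      (∀ (P : Set (Fm U)) (A : Fm U), BC {B | B ∈ P ∨ B ∉ O} A →
        BC {B | B = Fm.var (g v0) ∨ ∃ D ∈ P, B = f D} (f A)) ∧
      ∀ A, ∀ h ∈ (f A).subs, (∃ v, h = Fm.var v) ∨ (∃ B ∈ T, h = B.ren g) ∨
        Op Sch (fun i => f (pf i)) h := by
  obtain ⟨f, h1, h2, h3, h4, h5⟩ := translate0 v0 hT hTO hΓ hpf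
  refine ⟨fun A => (f A).ren g, isDer_ren h1 g, ?_, ?_, ?_, ?_⟩
  · intro A hA
    show (f A).ren g = A.ren g
    rw [h2 A hA]
  · intro A
    show ((f A).ren g).len ≤ _
    rw [len_ren]; exact h3 A
  · intro P A hA
    refine bc_ren g ?_ (h4 P A hA)
    rintro B (hB | ⟨D, hD, hB⟩)
    · exact Or.inl (by rw [hB]; rfl)
    · exact Or.inr ⟨D, hD, by rw [hB]⟩
  · intro A h hh
    rw [subs_ren, List.mem_map] at hh
    obtain ⟨B, hB, rfl⟩ := hh
    rcases h5 A B hB with ⟨v, hv⟩ | hBT | hop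
    · exact Or.inl ⟨g v, by rw [hv]; rfl⟩
    · exact Or.inr (Or.inl ⟨B, hBT, rfl⟩)
    · exact Or.inr (Or.inr (op_ren g hop))

end Pool.Agent.H90.PC
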