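import Mathlib
import Pool.Agent.H90.PC.Tr
import Pool.Agent.H90.PC.Core
import Pool.Agent.H90.PC.Tow
import Pool.Agent.H3.Frg4.Cnf
import Pool.Agent.H3.Frg4.FixedC
import Pool.Agent.H3.Ac.TowA
import Pool.Agent.H3.Ac.FixA
import Pool.Agent.H90.UB.Conn

set_option autoImplicit false
set_option linter.unusedSectionVars false

/-!
# Module FIX: the bound for one CNF

As `fixedC` in `H3/Frg4/FixedC.lean` (and `fixedW` in `H3/Wd/Fix.lean`): the same construction of the graph
(`towerP` for `j = J`), `v0`, `v1`, `P = Idx src tgt v1`, `idx`, `C0`, `d`, the maps `f : E → ℕ`, `g : ℕ → E`, and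
`C i = (C0 i).ren f`. New:
* `∃ j < 2 ^ d, C i = C j`: `idx i ∈ P`, so `idx i = idx j` for some `j < P.card ≤ 2 ^ d`.
* The last part: suppose `(L + 2 ^ (ℓ + 1) * (G.card + 1)) * (v + 2) + 2 ^ d ≤ cnt`. `translate g 0` with
  `T = {B | B ∈ τ.subs}`, `Γ = Set.range C` (`C i` is a subformula of `τ = ¬(bigAnd d C)` because
  `C i = C j`, `j < 2 ^ d`; transitivity of subformulas) gives `f'`; the derivation `fun i => f' (pf i)` is from
  `(fun A => A.ren g) '' Set.range C = Set.range C0` and contains `τ.ren g = ¬(bigAnd d C0)`.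
* `core` with `C0`, `G' = G.image f'` (classical), `Q' i = (Q i).image f' ∪ {var (g 0)}` (at most `v + 1`
  elements, sum of the lengths at most `S + 1`), `s := 4 * Dm`, `v := v + 1`, `S := S + 4 * Dm + 1`,
  `M := Mt * Dm ^ (J - j0)`, `k := kt * Dm ^ (J - j0)`, `K := (Dm + 1) * Dm ^ (J - j0)`,
  `h := 4 * X ^ (J - j0)` (`k3`, `hsize`). The hypothesis on the subformulas of `g ∈ G'` is the last
  property of `translate` (`B ∈ τ.subs → B.ren g ∈ (τ.ren g).subs`).
* `hW`: `world_top` for `hlev j0` with `J - J = 0`, `ε v = sg (sgn3 v1 v)`, `prod_sgn3 v1` (as in `fixedW`),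
  `As = (List.range (2 ^ d)).map C0`: `clp_spec` gives `vars ⊆ bd {v}`, and `C0 i` is true if the parity
  axiom of `v` is true (as in `fixedC`: `chi_congr'` and the definition of `Idx`).
-/

namespace Pool.Agent.H90.PC

open Finset Filter Topology Pool.Agent.H3.Frg Pool.Agent.H3.Frg2 Pool.Agent.H3.Frg3
  Pool.Agent.H3.Frg4 Pool.Agent.H3.Ex

theorem fx_trans {V : Type} (A : Fm V) : ∀ B ∈ A.subs, ∀ D ∈ B.subs, D ∈ A.subs := by
  induction A with
  | var i =>
    intro B hB D hD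
    simp only [Fm.subs, List.mem_singleton] at hB
    rw [hB] at hD
    exact hD
  | neg A ih =>
    intro B hB D hD
    have hB' := hB
    simp only [Fm.subs, List.mem_cons] at hB'
    rcases hB' with rfl | hB'
    · exact hD
    · simp only [Fm.subs, List.mem_cons]
      exact Or.inr (ih B hB' D hD)
  | imp A A' ih ih' =>
    intro B hB D hD
    have hB' := hB
    simp only [Fm.subs, List.mem_cons, List.mem_append] at hB'
    rcases hB' with rfl | hB' | hB'
    · exact hD
    · simp only [Fm.subs, List.mem_cons, List.mem_append]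
      exact Or.inr (Or.inl (ih B hB' D hD))
    · simp only [Fm.subs, List.mem_cons, List.mem_append]
      exact Or.inr (Or.inr (ih' B hB' D hD))

theorem fx_ren {V U : Type} (g : V → U) (A : Fm V) : ∀ B ∈ A.subs, B.ren g ∈ (A.ren g).subs := by
  induction A with
  | var i =>
    intro B hB
    simp only [Fm.subs, List.mem_singleton] at hB
    rw [hB]
    exact Pool.Agent.H3.Ac.self_subs _
  | neg A ih =>
    intro B hB
    simp only [Fm.subs, List.mem_cons] at hB
    rcases hB with rfl | hB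
    · exact Pool.Agent.H3.Ac.self_subs _
    · simp only [Fm.ren, Fm.subs, List.mem_cons]
      exact Or.inr (ih B hB)
  | imp A A' ih ih' =>
    intro B hB
    simp only [Fm.subs, List.mem_cons, List.mem_append] at hB
    rcases hB with rfl | hB | hB
    · exact Pool.Agent.H3.Ac.self_subs _
    · simp only [Fm.ren, Fm.subs, List.mem_cons, List.mem_append]
      exact Or.inr (Or.inl (ih B hB))
    · simp only [Fm.ren, Fm.subs, List.mem_cons, List.mem_append]
      exact Or.inr (Or.inr (ih' B hB))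

theorem fx_and {V : Type} : ∀ (d : ℕ) (C : ℕ → Fm V), ∀ j < 2 ^ d, C j ∈ (bigAnd d C).subs := by
  intro d
  induction d with
  | zero =>
    intro C j hj
    have h0 : j = 0 := by
      rw [pow_zero] at hj
      omega
    rw [h0]
    exact Pool.Agent.H3.Ac.self_subs _
  | succ d ih =>
    intro C j hj
    rw [pow_succ] at hj
    simp only [bigAnd, Fm.subs, List.mem_cons, List.mem_append]
    by_cases h : j < 2 ^ d
    · exact Or.inr (Or.inr (Or.inl (ih C j h)))
    · have h1 := ih (fun i => C (2 ^ d + i)) (j - 2 ^ d) (by omega)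
      rw [Nat.add_sub_cancel' (by omega)] at h1
      exact Or.inr (Or.inr (Or.inr (Or.inr h1)))

theorem fx_bc {V : Type} {P P' : Set (Fm V)} (h : ∀ A ∈ P, A ∈ P') {A : Fm V} (hA : BC P A) :
    BC P' A := by
  induction hA with
  | base A hA => exact BC.base _ (h _ hA)
  | neg A _ ih => exact BC.neg _ ih
  | imp A B _ _ ihA ihB => exact BC.imp _ _ ihA ihB

theorem fx_sum {V U : Type} [DecidableEq (Fm U)] (f : Fm V → Fm U) (hf : ∀ A, (f A).len ≤ A.len)
    (Q : Finset (Fm V)) : ∑ B ∈ Q.image f, B.len ≤ ∑ B ∈ Q, B.len := by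
  classical
  induction Q using Finset.induction_on with
  | empty => simp
  | insert a Q ha ih =>
    rw [Finset.image_insert, Finset.sum_insert ha]
    by_cases h : f a ∈ Q.image f
    · rw [Finset.insert_eq_of_mem h]
      omega
    · rw [Finset.sum_insert h]
      have := hf a
      omega

theorem fixedP {J n k Dm : ℕ} (hJD : dgf J ≤ Dm) (hn1 : 1000 ≤ n) :
    ∃ (d : ℕ) (C : ℕ → Fm ℕ), (∀ i, IsClause Dm (C i)) ∧
      (∀ x, (Fm.neg (bigAnd d C)).eval x = true) ∧
      (∀ i, ∃ j, j < 2 ^ d ∧ C i = C j) ∧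
      n ≤ (Fm.neg (bigAnd d C)).enc.length ∧
      2 ^ d ≤ 2 * (n * ((k + 1) * 2 ^ k) ^ J * 2 ^ Dm) ∧
      (Fm.neg (bigAnd d C)).enc.length ≤
        (n * ((k + 1) * 2 ^ k) ^ J * (2 ^ Dm * (8 * Dm + 8)) + 4) *
        (2 * Nat.size (Dm * (n * ((k + 1) * 2 ^ k) ^ J)) + 2) ∧
      (n * ((k + 1) * 2 ^ k) ^ J ≤ (Fm.neg (bigAnd d C)).enc.length ∧
        Pool.Agent.H90.UB.UBP Dm (n * ((k + 1) * 2 ^ k) ^ J) C) ∧
      ∀ j0 ≤ J, ∀ (t w X kt Mt K s ℓ cnt lam κ L1 : ℕ) (u0 u1 η : ℝ),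
        Nz (J - j0) (n * ((k + 1) * 2 ^ k) ^ j0) k t w X Dm kt (Dm + 1) Mt K s ℓ cnt lam κ L1
          u0 u1 η → 1 ≤ ℓ →
        ∀ Sch : Set (Fm ℕ), (∀ ψ ∈ Sch, ψ.len ≤ ℓ ∧ ∀ x : ℕ → Bool, ψ.eval x = true) →
        ∀ O : Set (Fm ℕ), (∀ B ∈ (Fm.neg (bigAnd d C)).subs, B ∈ O) →
        ∀ (L : ℕ) (pf : Fin L → Fm ℕ), IsDerO Sch O (Set.range C) pf →
        (∃ i, pf i = Fm.neg (bigAnd d C)) →
        ∀ (G : Finset (Fm ℕ)) (Q : Fin L → Finset (Fm ℕ)) (v S : ℕ),
          (∀ i, (Q i).card ≤ v ∧ ∑ B ∈ Q i, B.len ≤ S ∧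
            BC {A | A ∈ G ∨ A ∈ Q i ∨ A ∉ O} (pf i)) →
          S + 4 * Dm + 1 ≤ s →
          w * (4 * X ^ (J - j0) * (2 ^ (ℓ + 1) * (G.card + 1) * (v + 2)) +
            18 * (2 ^ (ℓ + 1) * (G.card + 1) * (2 * (S + 4 * Dm + 1)))) ≤
            4 * X ^ (J - j0) * (kt * Dm ^ (J - j0)) →
          cnt < (L + 2 ^ (ℓ + 1) * (G.card + 1)) * (v + 2) + 2 ^ d := by
  classical
  obtain ⟨E, Wv, iE, iD, iW, iDW, src, tgt, hG, hcW, hcE, hlev⟩ :=
    towerP (J := J) (n := n) (k := k) (Dm := Dm) hJD hn1 J le_rfl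
  have hDm : 80 ≤ Dm := (one_le_dgf J).trans hJD
  have hkk : 1 ≤ (k + 1) * 2 ^ k := Nat.mul_pos (by omega) (by positivity)
  have hnW : n ≤ Fintype.card Wv := by
    rw [hcW]; exact Nat.le_mul_of_pos_right _ (Nat.pow_pos hkk)
  have hneW : Nonempty Wv := Fintype.card_pos_iff.mp (by omega)
  obtain ⟨v1⟩ := hneW
  have hne : ∀ v, (bd src tgt {v}).Nonempty := by
    intro v
    rw [Finset.nonempty_iff_ne_empty]
    intro h0
    have h1 := hG.cheeger {v}
    rw [h0, Finset.card_empty, mul_zero, Finset.card_singleton] at h1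
    have : min 1 (Fintype.card Wv - 1) = 1 := min_eq_left (by omega)
    omega
  obtain ⟨v0, -⟩ := hne v1
  have hdeg : ∀ v, (bd src tgt {v}).card ≤ Dm := fun v => (hG.deg v).trans hJD
  -- the clauses
  obtain ⟨P, hP⟩ : ∃ P, P = Idx src tgt v1 := ⟨_, rfl⟩
  have hPle : P.card ≤ Fintype.card Wv * 2 ^ Dm := by rw [hP]; exact card_Idx_le hdeg v1
  have hleP : Fintype.card Wv ≤ P.card := by rw [hP]; exact le_card_Idx hne v1
  have hP0 : 1 ≤ P.card := by omega
  set φ := P.equivFin with hφ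
  set idx : ℕ → (Σ _ : Wv, Finset E) := fun i =>
    ((φ.symm (if h : i < P.card then ⟨i, h⟩ else ⟨0, hP0⟩) : P) : Σ _ : Wv, Finset E) with hidx
  have hidxP : ∀ i, idx i ∈ P := fun i => (φ.symm _).2
  have hidxS : ∀ p ∈ P, ∃ i < P.card, idx i = p := by
    intro p hp
    refine ⟨(φ ⟨p, hp⟩ : ℕ), (φ ⟨p, hp⟩).isLt, ?_⟩
    rw [hidx]
    simp
  set C0 : ℕ → Fm E := fun i => clp src tgt v0 (idx i) with hC0
  have hsp := fun i => clp_spec hdeg hne v0 (idx i)
  obtain ⟨d, hd⟩ : ∃ d, d = Nat.clog 2 P.card := ⟨_, rfl⟩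
  have hd1 : P.card ≤ 2 ^ d := by rw [hd]; exact Nat.le_pow_clog (by norm_num) _
  have hd2 : 2 ^ d ≤ 2 * P.card := by
    rcases Nat.lt_or_ge 1 P.card with h | h
    · have h3 : 2 ^ (Nat.clog 2 P.card - 1) < P.card := by
        have := Nat.pow_pred_clog_lt_self (b := 2) (by norm_num) h
        simpa using this
      have h4 : 0 < Nat.clog 2 P.card := Nat.clog_pos (by norm_num) h
      calc 2 ^ d = 2 * 2 ^ (Nat.clog 2 P.card - 1) := by
            rw [hd, ← pow_succ']; congr 1; omega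
        _ ≤ 2 * P.card := by omega
    · have h3 : P.card = 1 := by omega
      rw [hd, h3]
      simp
  -- variables in ℕ
  set ψ := Fintype.equivFin E with hψ
  set f : E → ℕ := fun v => (ψ v : ℕ) with hf
  have hfB : ∀ v, f v < Fintype.card E := fun v => (ψ v).isLt
  set g : ℕ → E := fun i => if h : i < Fintype.card E then ψ.symm ⟨i, h⟩ else v0 with hg
  have hgf : ∀ v, g (f v) = v := by
    intro v
    have h1 : f v < Fintype.card E := (ψ v).isLt
    rw [hg]
    simp only [h1, dif_pos]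
    exact ψ.symm_apply_apply v
  have hK : ∀ x, (bigAnd d C0).eval x = false := by
    intro x
    by_contra h1
    rw [Bool.not_eq_false, eval_bigAnd] at h1
    obtain ⟨p, hp, h2⟩ := exists_Idx (src := src) (tgt := tgt) v1 x
    rw [← hP] at hp
    obtain ⟨i, hi, h3⟩ := hidxS p hp
    have h4 := h1 i (lt_of_lt_of_le hi hd1)
    rw [hC0] at h4
    simp only at h4
    rw [(hsp i).2.2.2 x] at h4
    obtain ⟨w, hw, h5⟩ := h4
    rw [h3] at hw h5
    exact h5 (h2 w hw)
  have hren : ∀ d', (Fm.neg (bigAnd d' C0)).ren f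
      = Fm.neg (bigAnd d' fun i => (C0 i).ren f) := fun d' => by
    show Fm.neg ((bigAnd d' C0).ren f) = _
    rw [ren_bigAnd]
  have hlenC : ∀ i, (C0 i).len ≤ 4 * Dm := fun i => (hsp i).2.1
  have hlenK := len_bigAnd (4 * Dm) d C0 hlenC
  have h2d : 2 ^ d ≤ 2 * (Fintype.card Wv * 2 ^ Dm) := hd2.trans (Nat.mul_le_mul_left _ hPle)
  have hKd : 2 ^ d * (4 * Dm + 3) ≤ Fintype.card Wv * (2 ^ Dm * (8 * Dm + 8)) := by
    calc 2 ^ d * (4 * Dm + 3) ≤ 2 * (Fintype.card Wv * 2 ^ Dm) * (4 * Dm + 3) :=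
          Nat.mul_le_mul_right _ h2d
      _ = Fintype.card Wv * (2 ^ Dm * (8 * Dm + 6)) := by ring
      _ ≤ _ := Nat.mul_le_mul_left _ (Nat.mul_le_mul_left _ (by omega))
  have hper : ∀ i, ∃ j, j < 2 ^ d ∧ C0 i = C0 j := by
    intro i
    obtain ⟨i', hi', hii⟩ := hidxS _ (hidxP i)
    exact ⟨i', lt_of_lt_of_le hi' hd1, by rw [hC0]; simp only [hii]⟩
  refine ⟨d, fun i => (C0 i).ren f, fun i => isClause_ren f (hsp i).1, fun x => ?_, fun i => ?_,
    ?_, ?_, ?_, ⟨?_, ?_⟩, ?_⟩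
  · rw [← hren, eval_ren]
    show (!(bigAnd d C0).eval _) = true
    rw [hK]; rfl
  · obtain ⟨j, hj, hij⟩ := hper i
    exact ⟨j, hj, by simp only [hij]⟩
  · rw [← hren]
    refine le_trans ?_ (len_le_enc _)
    rw [len_ren]
    show n ≤ (bigAnd d C0).len + 1
    have := two_pow_le_len_bigAnd d C0
    omega
  · rw [← hcW]; exact h2d
  · rw [← hren]
    refine (enc_le f _ hfB _).trans ?_
    rw [← hcW]
    refine Nat.mul_le_mul ?_ ?_
    · show (bigAnd d C0).len + 1 ≤ _
      omega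
    · have h1 : Nat.size (Fintype.card E) ≤ Nat.size (Dm * Fintype.card Wv) := by
        refine Nat.size_le_size (hcE.trans ?_)
        exact Nat.mul_le_mul_right _ hJD
      omega
  · rw [← hcW, ← hren]
    refine le_trans ?_ (len_le_enc _)
    rw [len_ren]
    show Fintype.card Wv ≤ (bigAnd d C0).len + 1
    have := two_pow_le_len_bigAnd d C0
    omega
  · have h1 := Pool.Agent.H90.UB.graph_ubp hG.loopless hdeg hne
      (hcE.trans (Nat.mul_le_mul_right _ hJD)) v1 v0 ψ idx (by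
        intro p hp
        rw [← hP] at hp
        obtain ⟨i, _, hi⟩ := hidxS p hp
        exact ⟨i, hi⟩)
    rw [hcW] at h1
    exact h1
  · intro j0 hj0 t w X kt Mt K s ℓ cnt lam κ L1 u0 u1 η hN hℓ Sch hSch O hO L pf hpf hfin G Q v S
      hQ hSs hsz
    by_contra hL
    push Not at hL
    obtain ⟨fam, hfM, hfK, hlv⟩ := hlev j0 hj0 t w X kt (Dm + 1) Mt K s ℓ cnt lam κ L1 u0 u1 η hN
    rw [Nat.sub_self, pow_zero, pow_zero, mul_one, mul_one, mul_one] at hlv
    rw [Nat.sub_self, pow_zero, mul_one] at hfM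
    have hw1 := hN.w1
    have hx1 := hN.x1
    have hwkt : w ≤ kt := by
      refine le_trans ?_ hN.k1
      exact Nat.le_mul_of_pos_right _ (by omega)
    have hDK : ∀ i : ℕ, 1 ≤ Dm ^ i := fun i => Nat.one_le_pow _ _ (by omega)
    have hXi : 1 ≤ X ^ (J - j0) := Nat.one_le_pow _ _ hx1
    have hK1 : 1 ≤ fam.K := by
      rw [hfK]
      refine le_trans ?_ hN.kk
      exact Nat.mul_pos (by omega) (Nat.mul_pos (by omega) (Nat.mul_pos (by omega)
        (Nat.mul_pos (by omega) (by omega))))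
    have hKM : 2 * (Dm + 1) ≤ fam.M := by
      rw [hfM]
      have h1 := hN.k3
      have h2 : 10 * (0 + 2) * (0 + (Dm + 1)) ≤ 10 * (ℓ + 2) * (kt + (Dm + 1)) :=
        Nat.mul_le_mul (Nat.mul_le_mul_left _ (by omega)) (by omega)
      omega
    -- the translation
    obtain ⟨C, hC⟩ : ∃ C : ℕ → Fm ℕ, C = fun i => (C0 i).ren f := ⟨_, rfl⟩
    obtain ⟨τ, hτ⟩ : ∃ τ, τ = Fm.neg (bigAnd d C) := ⟨_, rfl⟩
    have hτ1 : (Fm.neg (bigAnd d fun i => (C0 i).ren f)) = τ := by rw [hτ, hC]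
    rw [hτ1] at hO hfin
    have hCg : ∀ i, (C i).ren g = C0 i := by
      intro i
      rw [hC]
      simp only
      rw [ren_ren]
      simp only [hgf]
      exact ren_id _
    have hτg : τ.ren g = Fm.neg (bigAnd d C0) := by
      rw [← hτ1, ← hren, ren_ren]
      simp only [hgf]
      exact ren_id _
    have hCτ : ∀ i, C i ∈ τ.subs := by
      intro i
      obtain ⟨j, hj, hij⟩ := hper i
      have h1 : C i = C j := by rw [hC]; simp only [hij]
      rw [h1, hτ]
      simp only [Fm.subs, List.mem_cons]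
      exact Or.inr (fx_and d C j hj)
    have hpf' : IsDerO Sch O (Set.range C) pf := by rw [hC]; exact hpf
    obtain ⟨f', hf1, hf2, hf3, hf4, hf5⟩ := translate g 0 (T := {B | B ∈ τ.subs})
      (fun A hA B hB => fx_trans τ A hA B hB) (fun A hA => hO A hA)
      (by rintro A ⟨i, rfl⟩; exact hCτ i) hpf'
    have hpf1 : IsDer Sch (Set.range C0) (fun i => f' (pf i)) := by
      have h2 : (fun A : Fm ℕ => A.ren g) '' Set.range C = Set.range C0 := by
        rw [← Set.range_comp]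
        congr 1
        funext i
        exact hCg i
      rwa [h2] at hf1
    have hfin1 : ∃ i, f' (pf i) = Fm.neg (bigAnd d C0) := by
      obtain ⟨i, hi⟩ := hfin
      refine ⟨i, ?_⟩
      rw [hi, hf2 τ (Pool.Agent.H3.Ac.self_subs _), hτg]
    have hGc : (G.image f').card ≤ G.card := Finset.card_image_le
    have hQ1 : ∀ i, (insert (Fm.var (g 0)) ((Q i).image f')).card ≤ v + 1 := by
      intro i
      have h1 := Finset.card_insert_le (Fm.var (g 0)) ((Q i).image f')
      have h2 : ((Q i).image f').card ≤ (Q i).card := Finset.card_image_le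
      have h3 := (hQ i).1
      omega
    have hQ2 : ∀ i, ∑ B ∈ insert (Fm.var (g 0)) ((Q i).image f'), B.len ≤ S + 4 * Dm + 1 := by
      intro i
      have h2 := fx_sum f' hf3 (Q i)
      have h3 := (hQ i).2.1
      by_cases h : Fm.var (g 0) ∈ (Q i).image f'
      · rw [Finset.insert_eq_of_mem h]
        omega
      · rw [Finset.sum_insert h]
        have h4 : (Fm.var (g 0)).len = 1 := rfl
        omega
    have hQ3 : ∀ i, BC {A | A ∈ G.image f' ∨ A ∈ insert (Fm.var (g 0)) ((Q i).image f')}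
        (f' (pf i)) := by
      intro i
      have h1 : BC {B | B ∈ {A | A ∈ G ∨ A ∈ Q i} ∨ B ∉ O} (pf i) := by
        refine fx_bc ?_ (hQ i).2.2
        rintro A (hA | hA | hA)
        · exact Or.inl (Or.inl hA)
        · exact Or.inl (Or.inr hA)
        · exact Or.inr hA
      refine fx_bc ?_ (hf4 _ _ h1)
      rintro A (hA | ⟨D, hD, rfl⟩)
      · rw [hA]
        exact Or.inr (Finset.mem_insert_self _ _)
      · rcases hD with hD | hD
        · exact Or.inl (Finset.mem_image_of_mem _ hD)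
        · exact Or.inr (Finset.mem_insert_of_mem (Finset.mem_image_of_mem _ hD))
    have hG1 : ∀ h ∈ G.image f', ∀ B ∈ h.subs, (∃ x, B = Fm.var x) ∨
        B ∈ (Fm.neg (bigAnd d C0)).subs ∨ Op Sch (fun i => f' (pf i)) B := by
      intro h hh B hB
      rw [Finset.mem_image] at hh
      obtain ⟨A, _, rfl⟩ := hh
      rcases hf5 A B hB with h1 | ⟨D, hD, rfl⟩ | h1
      · exact Or.inl h1
      · refine Or.inr (Or.inl ?_)
        rw [← hτg]
        exact fx_ren g τ D hD
      · exact Or.inr (Or.inr h1)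
    have hcw : (G.image f').card + 1 ≤ G.card + 1 := by omega
    refine core hℓ hSch hpf1 hfin1 hper (s := 4 * Dm) (v := v + 1) (S := S + 4 * Dm + 1) hlenC
      (by omega) (G.image f') (fun i => insert (Fm.var (g 0)) ((Q i).image f')) hQ1 hQ2 hQ3 hG1
      (M := Mt * Dm ^ (J - j0)) (w := w) (k := kt * Dm ^ (J - j0))
      (K := (Dm + 1) * Dm ^ (J - j0)) (h := 4 * X ^ (J - j0)) (by omega)
      (Nat.mul_pos (by omega) (hDK _)) ?_ ?_ ?_
    · calc 10 * (ℓ + 2) * (kt * Dm ^ (J - j0) + (Dm + 1) * Dm ^ (J - j0))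
          = 10 * (ℓ + 2) * (kt + (Dm + 1)) * Dm ^ (J - j0) := by ring
        _ ≤ Mt * Dm ^ (J - j0) := Nat.mul_le_mul_right _ hN.k3
    · refine le_trans ?_ hsz
      refine Nat.mul_le_mul_left _ (Nat.add_le_add ?_ ?_)
      · exact Nat.mul_le_mul_left _ (Nat.mul_le_mul_right _ (Nat.mul_le_mul_left _ hcw))
      · exact Nat.mul_le_mul_left _ (Nat.mul_le_mul_right _ (Nat.mul_le_mul_left _ hcw))
    · intro Bs hBs hBl
      refine world_top fam hlv (by omega) hw1 hK1 hKM v0 (ε := fun v => sg (sgn3 v1 v))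
        (fun v => sg_mul_self _) (Pool.Agent.H3.Ac.prod_sgn3 v1) Bs
        (fun B hB => (hBs B hB).trans hSs) (hBl.trans (le_trans ?_ hL)) _ ?_
      · refine Nat.add_le_add_right (Nat.mul_le_mul_right _ ?_) _
        exact Nat.add_le_add_left (Nat.mul_le_mul_left _ hcw) _
      · intro A hA
        rw [List.mem_map] at hA
        obtain ⟨i, _, rfl⟩ := hA
        have hcv : (C0 i).vars.card ≤ Dm :=
          (Finset.card_le_card (hsp i).2.2.1).trans (hdeg _)
        refine ⟨by omega, (idx i).1, (hdeg _).trans (by omega), fun x hx => ?_⟩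
        rw [hC0]
        simp only
        rw [(hsp i).2.2.2 x]
        by_contra h8
        push Not at h8
        rw [chi_congr' h8] at hx
        have h1 := hidxP i
        rw [hP] at h1
        unfold Idx at h1
        rw [Finset.mem_sigma, Finset.mem_filter] at h1
        exact h1.2.2 hx

end Pool.Agent.H90.PC
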