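import Mathlib

set_option autoImplicit false
set_option linter.unusedSectionVars false

/-!
# Module PAR: the choice of the exponents

**`params`.** `J = ⌈8 / e⌉₊ + 1`; for `c1` choose `y ≥ 30 + (c1 * (2 * J + 1) + 32) + ⌈16 / e⌉₊` and
`m = 5 * y`. Let `p = y + c1`, `A = m + p * J + 1`, `m_j = m + p * j`. Given `a ∈ [0,1]` let `j ≤ J` be minimal
with `A (a - e) ≤ m_j - 15`; it exists because for `j = J`: `m_J - 15 = A - 16` and `A e ≥ 16`.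
* `j = 0`: `A (2 - a - e) ≤ 2 A - e A = 10 y + 2 y J + 2 c1 J + 2 - e A ≤ 2 y J + 5 y - 15`, because
  `e A ≥ e y J ≥ 8 y` and `3 y ≥ 2 c1 J + 17`.
* `j ≥ 1`: `A (a - e) > m_j - p - 15`, so `A (2 - a - e) < 2 A - 2 e A - m_j + p + 15`, and this is at most
  `2 y (J - j) + m_j - 15` because `2 m_j + 2 y (J - j) = 10 y + 2 y J + 2 c1 j`,
  `2 A = 10 y + 2 y J + 2 c1 J + 2` and `2 e A ≥ 16 y ≥ p + 2 c1 J + 32`.
-/

namespace Pool.Agent.H90.PC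

theorem params (e : ℝ) (he : 0 < e) :
    ∃ J : ℕ, ∀ c1 : ℕ, ∃ y m : ℕ, 1 ≤ y ∧ 4 * y + 30 ≤ m ∧
      ∀ a : ℝ, 0 ≤ a → a ≤ 1 → ∃ j ≤ J,
        ((m + (y + c1) * J + 1 : ℕ) : ℝ) * (a - e) ≤ ((m + (y + c1) * j : ℕ) : ℝ) - 15 ∧
        ((m + (y + c1) * J + 1 : ℕ) : ℝ) * (2 - a - e) ≤
          2 * (y : ℝ) * ((J - j : ℕ) : ℝ) + ((m + (y + c1) * j : ℕ) : ℝ) - 15 := by
  set J : ℕ := ⌈8 / e⌉₊ + 1 with hJ
  have hJe : (8 : ℝ) ≤ e * J := by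
    have h1 : 8 / e ≤ (⌈8 / e⌉₊ : ℝ) := Nat.le_ceil _
    rw [div_le_iff₀ he] at h1
    have h2 : (J : ℝ) = (⌈8 / e⌉₊ : ℝ) + 1 := by rw [hJ]; push_cast; ring
    rw [h2]
    nlinarith
  refine ⟨J, fun c1 => ?_⟩
  set y : ℕ := 30 + (c1 * (2 * J + 1) + 32) with hy
  refine ⟨y, 5 * y, by omega, by omega, ?_⟩
  intro a ha0 ha1
  set A : ℝ := ((5 * y + (y + c1) * J + 1 : ℕ) : ℝ) with hA
  have hA' : A = 5 * (y : ℝ) + ((y : ℝ) + c1) * J + 1 := by rw [hA]; push_cast; ring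
  have hyR : (y : ℝ) = 30 + ((c1 : ℝ) * (2 * J + 1) + 32) := by rw [hy]; push_cast; ring
  have hc0 : (0 : ℝ) ≤ c1 := Nat.cast_nonneg c1
  have hJ0 : (0 : ℝ) ≤ J := Nat.cast_nonneg J
  have hcJ : (0 : ℝ) ≤ (c1 : ℝ) * J := mul_nonneg hc0 hJ0
  have hy0 : (62 : ℝ) ≤ y := by rw [hyR]; nlinarith
  have heA : 8 * (y : ℝ) ≤ e * A := by
    have h1 : (y : ℝ) * 8 ≤ y * (e * J) := mul_le_mul_of_nonneg_left hJe (by linarith)
    have h2 : 0 ≤ e * (5 * (y : ℝ) + c1 * J + 1) := by positivity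
    have h3 : e * A = y * (e * J) + e * (5 * (y : ℝ) + c1 * J + 1) := by rw [hA']; ring
    linarith
  have hA0 : 0 ≤ A := Nat.cast_nonneg _
  classical
  have hex : ∃ j : ℕ, A * (a - e) ≤ ((5 * y + (y + c1) * j : ℕ) : ℝ) - 15 := by
    refine ⟨J, ?_⟩
    have h1 : ((5 * y + (y + c1) * J : ℕ) : ℝ) = A - 1 := by rw [hA]; push_cast; ring
    rw [h1]
    have h2 : A * a ≤ A * 1 := mul_le_mul_of_nonneg_left ha1 hA0
    nlinarith
  have hle : Nat.find hex ≤ J := by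
    refine Nat.find_le ?_
    have h1 : ((5 * y + (y + c1) * J : ℕ) : ℝ) = A - 1 := by rw [hA]; push_cast; ring
    rw [h1]
    have h2 : A * a ≤ A * 1 := mul_le_mul_of_nonneg_left ha1 hA0
    nlinarith
  refine ⟨Nat.find hex, hle, Nat.find_spec hex, ?_⟩
  have hAa : 0 ≤ A * a := mul_nonneg hA0 ha0
  rcases Nat.eq_zero_or_pos (Nat.find hex) with h0 | h0
  · rw [h0, Nat.sub_zero]
    push_cast
    nlinarith
  · have h1 := Nat.find_min hex (Nat.sub_lt h0 one_pos)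
    rw [not_le] at h1
    set j : ℕ := Nat.find hex with hj
    obtain ⟨i, hi⟩ : ∃ i, j = i + 1 := ⟨j - 1, by omega⟩
    rw [hi] at h1 hle ⊢
    rw [Nat.add_sub_cancel] at h1
    rw [Nat.cast_sub hle]
    push_cast at h1 ⊢
    have hi0 : (0 : ℝ) ≤ i := Nat.cast_nonneg i
    have hci : (0 : ℝ) ≤ (c1 : ℝ) * i := mul_nonneg hc0 hi0
    nlinarith

end Pool.Agent.H90.PC
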