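import Mathlib
import Pool.Agent.H90.PC.Fin1

set_option autoImplicit false
set_option linter.unusedSectionVars false

/-!
# Module FIN: the final theorem

**`finalQ`.** Everything follows from `final1` for `e / 3`. Part 1 (Boolean combinations): `O = Set.univ`;
as all formulas have size at least `1`, at most `S` formulas are chosen for a line, so `w` may be
replaced by `min w ⌊S⌋`, and then the condition `(|G| + 1) (w + 1) ≤ |τ| ^ (1 - e / 3)` follows from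
`(|G| + 1) ^ 2 (w + 1) S ≤ |τ| ^ (2 - e)`. Part 2: `G` the set of the lines of size
`> x ^ (2 - e) / N ^ 2`, `w = 1`, `Q i = if the line is in G then ∅ else {pf i}`,
`S = x ^ (2 - e) / N ^ 2`.
-/

namespace Pool.Agent.H90.PC

open Finset Filter Topology Pool.Agent.H3.Frg Pool.Agent.H3.Frg2 Pool.Agent.H3.Frg3
  Pool.Agent.H3.Frg4 Pool.Agent.H3.Ex

theorem finalQ (e : ℝ) (he : 0 < e) :
    ∃ (k : ℕ) (ε : ℝ), 0 < ε ∧ ∃ (d : ℕ → ℕ) (C : ℕ → ℕ → Fm ℕ) (τ : ℕ → Fm ℕ),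
      (∀ n, τ n = Fm.neg (bigAnd (d n) (C n))) ∧
      (∀ n i, IsClause k (C n i)) ∧
      (∀ n x, (τ n).eval x = true) ∧
      (∀ n i, ∃ j, j < 2 ^ d n ∧ C n i = C n j) ∧
      Tendsto (fun n => (τ n).enc.length) atTop atTop ∧
      (∀ ℓ : ℕ, ∀ᶠ n in atTop,
        ∀ Sch : Set (Fm ℕ), (∀ ψ ∈ Sch, ψ.len ≤ ℓ ∧ ∀ x : ℕ → Bool, ψ.eval x = true) →
          ∀ (L : ℕ) (pf : Fin L → Fm ℕ), IsDer Sch (Set.range (C n)) pf → (∃ i, pf i = τ n) →
            ((L : ℝ) < (2 : ℝ) ^ (((τ n).enc.length : ℝ) ^ ε) →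
              ∀ N : ℕ, 1 ≤ N → (N : ℝ) ≤ ((τ n).enc.length : ℝ) ^ (1 - e) →
                N < {A | (∃ i, A = pf i) ∧
                  ((τ n).enc.length : ℝ) ^ (2 - e) / (N : ℝ) ^ 2 < (A.enc.length : ℝ)}.ncard) ∧
            ∀ (G : Finset (Fm ℕ)) (Q : Fin L → Finset (Fm ℕ)) (w : ℕ) (S : ℝ), 1 ≤ S →
              ((G.card : ℝ) + 1) ^ 2 * (w + 1) * S ≤ ((τ n).enc.length : ℝ) ^ (2 - e) →
              (∀ i, (Q i).card ≤ w ∧ ((∑ B ∈ Q i, B.enc.length : ℕ) : ℝ) ≤ S ∧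
                BC {A | A ∈ G ∨ A ∈ Q i} (pf i)) →
              (2 : ℝ) ^ (((τ n).enc.length : ℝ) ^ ε) ≤ L) ∧
      ∀ F : Set (Fm ℕ), Pool.Agent.H90.UB.Compl F → ∀ᶠ n in atTop,
        ∀ N : ℕ, 1 ≤ N → (N : ℝ) ≤ ((τ n).enc.length : ℝ) →
          ∃ (L : ℕ) (pf : Fin L → Fm ℕ), IsDer F (Set.range (C n)) pf ∧ (∃ i, pf i = τ n) ∧
            L ≤ (τ n).enc.length ^ 4 ∧ (∀ i, (pf i).enc.length ≤ (τ n).enc.length ^ 5) ∧
            (({A | (∃ i, A = pf i) ∧ ((τ n).enc.length : ℝ) ^ (2 + e) / (N : ℝ) ^ 2 <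
              (A.enc.length : ℝ)}.ncard : ℕ) : ℝ) ≤ ((N : ℝ) - 1) * ((τ n).enc.length : ℝ) ^ e := by
  classical
  obtain ⟨k, ε, hε, d, C, τ, h1, h2, h3, h4, h5, h7, h6⟩ := final1 (e / 3) (by linarith)
  refine ⟨k, ε, hε, d, C, τ, h1, h2, h3, h4, h5, ?_, fun F hF => h7 e he F hF⟩
  intro ℓ
  have hx : Tendsto (fun n => (((τ n).enc.length : ℕ) : ℝ) ^ (e / 3)) atTop atTop :=
    (tendsto_rpow_atTop (by linarith)).comp (tendsto_natCast_atTop_atTop.comp h5)
  filter_upwards [h6 ℓ, hx.eventually_ge_atTop 16, h5.eventually_ge_atTop 1] with n hn hx8 hx1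
  intro Sch hS L pf hpf hτ
  set x : ℝ := ((τ n).enc.length : ℝ) with hxdef
  have hx1' : (1 : ℝ) ≤ x := by
    rw [hxdef]
    exact_mod_cast hx1
  have hx0 : (0 : ℝ) < x := by linarith
  -- the general form
  have gen : ∀ (G : Finset (Fm ℕ)) (Q : Fin L → Finset (Fm ℕ)) (w : ℕ) (S : ℝ), 1 ≤ S →
      ((G.card : ℝ) + 1) ^ 2 * (w + 1) * S ≤ 8 * x ^ (2 - e) →
      (∀ i, (Q i).card ≤ w ∧ ((∑ B ∈ Q i, B.enc.length : ℕ) : ℝ) ≤ S ∧
        BC {A | A ∈ G ∨ A ∈ Q i} (pf i)) → (2 : ℝ) ^ (x ^ ε) ≤ L := by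
    intro G Q w S hS1 hw hQ
    have hG1 : (1 : ℝ) ≤ (G.card : ℝ) + 1 := by
      have := Nat.cast_nonneg (α := ℝ) G.card
      linarith
    have h8 : x ^ (2 - e) * x ^ (e / 3) = x ^ (2 - 2 * (e / 3)) := by
      rw [← Real.rpow_add hx0]
      congr 1
      ring
    have h9 : x ^ (2 - 2 * (e / 3)) * x ^ (e / 3) = x ^ (2 - e / 3) := by
      rw [← Real.rpow_add hx0]
      congr 1
      ring
    have h10 : (0 : ℝ) < x ^ (2 - e) := by positivity
    have h11 : (0 : ℝ) < x ^ (2 - 2 * (e / 3)) := by positivity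
    refine hn Sch hS Set.univ (fun B _ => Set.mem_univ B) L pf ?_ hτ G Q (min w ⌊S⌋₊) S ?_ ?_ ?_
    · intro i
      rcases hpf i with h | ⟨ψ, hψ, σ, h⟩ | ⟨j, k, hj, hk, h⟩
      · exact Or.inl h
      · exact Or.inr (Or.inl ⟨ψ, hψ, σ, h, fun X _ _ => Set.mem_univ _⟩)
      · exact Or.inr (Or.inr ⟨j, k, hj, hk, h, Set.mem_univ _⟩)
    · -- the first condition
      have e1 : (((min w ⌊S⌋₊ : ℕ) : ℝ) + 1) ≤ (w : ℝ) + 1 := by
        have : ((min w ⌊S⌋₊ : ℕ) : ℝ) ≤ (w : ℝ) := by exact_mod_cast min_le_left _ _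
        linarith
      have e2 : (((min w ⌊S⌋₊ : ℕ) : ℝ) + 1) ≤ 2 * S := by
        have h12 : ((min w ⌊S⌋₊ : ℕ) : ℝ) ≤ (⌊S⌋₊ : ℝ) := by exact_mod_cast min_le_right _ _
        have h13 := Nat.floor_le (show 0 ≤ S by linarith)
        linarith
      have e0 : (0 : ℝ) ≤ ((min w ⌊S⌋₊ : ℕ) : ℝ) + 1 := by positivity
      have e3 : (((G.card : ℝ) + 1) * (((min w ⌊S⌋₊ : ℕ) : ℝ) + 1)) ^ 2 ≤
          16 * x ^ (2 - e) := by
        calc (((G.card : ℝ) + 1) * (((min w ⌊S⌋₊ : ℕ) : ℝ) + 1)) ^ 2 =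
              ((G.card : ℝ) + 1) ^ 2 * ((((min w ⌊S⌋₊ : ℕ) : ℝ) + 1) *
                (((min w ⌊S⌋₊ : ℕ) : ℝ) + 1)) := by ring
          _ ≤ ((G.card : ℝ) + 1) ^ 2 * (((w : ℝ) + 1) * (2 * S)) := by
              refine mul_le_mul_of_nonneg_left ?_ (by positivity)
              exact mul_le_mul e1 e2 e0 (by positivity)
          _ = 2 * (((G.card : ℝ) + 1) ^ 2 * (w + 1) * S) := by ring
          _ ≤ _ := by linarith
      have e4 : (x ^ (1 - e / 3)) ^ 2 = x ^ (2 - e) * x ^ (e / 3) := by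
        rw [h8, ← Real.rpow_natCast, ← Real.rpow_mul hx0.le]
        congr 1
        push_cast
        ring
      refine le_of_sq_le_sq ?_ (by positivity)
      rw [e4]
      refine e3.trans ?_
      rw [mul_comm]
      exact mul_le_mul_of_nonneg_left hx8 h10.le
    · -- the second condition
      have e1 : (((min w ⌊S⌋₊ : ℕ) : ℝ) + 1) ≤ (w : ℝ) + 1 := by
        have : ((min w ⌊S⌋₊ : ℕ) : ℝ) ≤ (w : ℝ) := by exact_mod_cast min_le_left _ _
        linarith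
      have e2 : ((G.card : ℝ) + 1) ^ 2 * (((min w ⌊S⌋₊ : ℕ) : ℝ) + 1) * S ≤
          ((G.card : ℝ) + 1) ^ 2 * (w + 1) * S := by
        refine mul_le_mul_of_nonneg_right ?_ (by linarith)
        exact mul_le_mul_of_nonneg_left e1 (by positivity)
      refine (e2.trans hw).trans ?_
      rw [← h9, ← h8]
      have h12 : (1 : ℝ) ≤ x ^ (e / 3) := by linarith
      calc 8 * x ^ (2 - e) ≤ x ^ (e / 3) * x ^ (2 - e) :=
            mul_le_mul_of_nonneg_right (by linarith) h10.le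
        _ = x ^ (2 - e) * x ^ (e / 3) * 1 := by ring
        _ ≤ _ := mul_le_mul_of_nonneg_left h12 (by positivity)
    · intro i
      obtain ⟨q1, q2, q3⟩ := hQ i
      refine ⟨le_min q1 (Nat.le_floor (le_trans ?_ q2)), q2, ?_⟩
      · have h12 : (Q i).card ≤ ∑ B ∈ Q i, B.enc.length := by
          rw [Finset.card_eq_sum_ones]
          refine Finset.sum_le_sum fun B _ => ?_
          exact (Fm_len_pos B).trans (len_le_enc B)
        exact_mod_cast h12
      · refine fx_bc ?_ q3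
        rintro A (hA | hA)
        · exact Or.inl hA
        · exact Or.inr (Or.inl hA)
  refine ⟨?_, fun G Q w S hS1 hw hQ => gen G Q w S hS1 (hw.trans ?_) hQ⟩
  · intro hL N hN hNx
    by_contra hcon
    push Not at hcon
    have hN0 : (0 : ℝ) < N := by exact_mod_cast hN
    have hN1 : (1 : ℝ) ≤ N := by exact_mod_cast hN
    set G : Finset (Fm ℕ) := (Finset.univ.image pf).filter
      (fun A => x ^ (2 - e) / (N : ℝ) ^ 2 < (A.enc.length : ℝ)) with hG
    have hGs : {A | (∃ i, A = pf i) ∧ x ^ (2 - e) / (N : ℝ) ^ 2 < (A.enc.length : ℝ)} =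
        (G : Set (Fm ℕ)) := by
      ext A
      rw [hG, Finset.coe_filter]
      simp only [Set.mem_ofPred_eq, Finset.mem_image, Finset.mem_univ, true_and]
      constructor
      · rintro ⟨⟨i, hi⟩, h⟩
        exact ⟨⟨i, hi.symm⟩, h⟩
      · rintro ⟨⟨i, hi⟩, h⟩
        exact ⟨⟨i, hi.symm⟩, h⟩
    have hGc : (G.card : ℝ) ≤ N := by
      rw [hGs, Set.ncard_coe_finset] at hcon
      exact_mod_cast hcon
    have hSS : 1 ≤ x ^ (2 - e) / (N : ℝ) ^ 2 := by
      rw [le_div_iff₀ (by positivity), one_mul]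
      calc (N : ℝ) ^ 2 ≤ (x ^ (1 - e)) ^ 2 := pow_le_pow_left₀ hN0.le hNx 2
        _ = x ^ (2 * (1 - e)) := by
            rw [← Real.rpow_natCast, ← Real.rpow_mul hx0.le]
            congr 1
            push_cast
            ring
        _ ≤ _ := Real.rpow_le_rpow_of_exponent_le hx1' (by linarith)
    have key := gen G (fun i => if pf i ∈ G then ∅ else {pf i}) 1
      (x ^ (2 - e) / (N : ℝ) ^ 2) hSS ?_ ?_
    · exact absurd key (not_le.2 hL)
    · have h9 : ((G.card : ℝ) + 1) ^ 2 ≤ (2 * N) ^ 2 := by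
        apply pow_le_pow_left₀ (by positivity)
        linarith
      have h10 : ((G.card : ℝ) + 1) ^ 2 * (((1 : ℕ) : ℝ) + 1) * (x ^ (2 - e) / (N : ℝ) ^ 2) ≤
          (2 * N) ^ 2 * 2 * (x ^ (2 - e) / (N : ℝ) ^ 2) := by
        apply mul_le_mul_of_nonneg_right _ (by linarith)
        push_cast
        linarith
      refine h10.trans (le_of_eq ?_)
      field_simp
      ring
    · intro i
      by_cases hi : pf i ∈ G
      · simp only [if_pos hi]
        refine ⟨by simp, by simp; linarith, BC.base _ (Or.inl hi)⟩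
      · simp only [if_neg hi]
        refine ⟨by simp, ?_, BC.base _ (Or.inr (Finset.mem_singleton_self _))⟩
        rw [Finset.sum_singleton]
        by_contra h
        push Not at h
        apply hi
        rw [hG, Finset.mem_filter]
        exact ⟨Finset.mem_image_of_mem _ (Finset.mem_univ _), h⟩
  · have : (0 : ℝ) < x ^ (2 - e) := by positivity
    linarith

end Pool.Agent.H90.PC
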